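import Pool.Agent.Lib.MP_9fb153_ag.Cell

/-!
Arcs through `e_v` inside the Schubert variety.
-/

namespace Pool.Agent.Lib.MP_9fb153_ag

open Matrix

variable {D : Type} [CommRing D]

def arcG (e : Pos 12 → D) (A : Matrix (Fin 8) (Fin 2) D) (C0 : M2 D) (t : D) : Pos 12 → D :=
  fun x =>
    if h1 : (x.1.2 : ℕ) < 2 then
      if h2 : 10 ≤ (x.1.1 : ℕ) then t ^ 2 * C0 ⟨x.1.1 - 10, by omega⟩ ⟨x.1.2, h1⟩
      else if h3 : 2 ≤ (x.1.1 : ℕ) then
        (Um (unitri fun y => t * e y) * (t • A)) ⟨x.1.1 - 2, by omega⟩ ⟨x.1.2, h1⟩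
      else t * e x
    else t * e x

def lead (e : Pos 12 → D) (A : Matrix (Fin 8) (Fin 2) D) : Pos 12 → D :=
  fun x =>
    if h1 : (x.1.2 : ℕ) < 2 then
      if 10 ≤ (x.1.1 : ℕ) then 0
      else if h3 : 2 ≤ (x.1.1 : ℕ) ∧ (x.1.1 : ℕ) < 10 then A ⟨x.1.1 - 2, by omega⟩ ⟨x.1.2, h1⟩
      else e x
    else e x

theorem lft_lt_mid (c : Fin 2) (l : Fin 8) : lft c < mid l := by
  rw [Fin.lt_def]; simp; omega
theorem lft_lt_bot (c : Fin 2) (l : Fin 2) : lft c < bot l := by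
  rw [Fin.lt_def]; simp; omega
theorem mid_lt_bot (c : Fin 8) (l : Fin 2) : mid c < bot l := by
  rw [Fin.lt_def]; simp; omega

variable (e : Pos 12 → D) (A : Matrix (Fin 8) (Fin 2) D) (C0 : M2 D) (t : D)

theorem Cm_arcG (i c : Fin 2) : Cm (unitri (arcG e A C0 t)) i c = t ^ 2 * C0 i c := by
  rw [Cm, unitri_of_gt _ (lft_lt_bot c i)]
  simp only [arcG, lft_val, bot_val, Fin.is_lt, dite_true, le_add_iff_nonneg_right,
    zero_le, add_tsub_cancel_left, Fin.eta]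

theorem Am_arcG : Am (unitri (arcG e A C0 t)) = Um (unitri fun y => t * e y) * (t • A) := by
  ext l c
  rw [Am, submatrix_apply, unitri_of_gt _ (lft_lt_mid c l)]
  have h : ¬ (10 ≤ 2 + (l : ℕ)) := by omega
  simp only [arcG, lft_val, mid_val, Fin.is_lt, dite_true, h, dite_false, le_add_iff_nonneg_right,
    zero_le, add_tsub_cancel_left, Fin.eta]

theorem unitri_arcG_of_two_le (i j : Fin 12) (hj : 2 ≤ (j : ℕ)) :
    unitri (arcG e A C0 t) i j = unitri (fun y => t * e y) i j := by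
  have h : ¬ ((j : ℕ) < 2) := by omega
  simp only [unitri, of_apply, arcG, h, dite_false]

theorem Um_arcG : Um (unitri (arcG e A C0 t)) = Um (unitri fun y => t * e y) := by
  ext l c
  exact unitri_arcG_of_two_le e A C0 t _ _ (by simp)

theorem Ap_arcG : Ap (unitri (arcG e A C0 t)) = t • A :=
  Ap_eq_of _ _ (by rw [Am_arcG, Um_arcG])

theorem Bm_arcG (i : Fin 2) (l : Fin 8) :
    Bm (unitri (arcG e A C0 t)) i l = t * Bm (unitri e) i l := by
  simp only [Bm, submatrix_apply]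
  rw [unitri_arcG_of_two_le e A C0 t _ _ (by simp), unitri_of_gt _ (mid_lt_bot l i),
    unitri_of_gt _ (mid_lt_bot l i)]

theorem Ms_arcG (r : ℕ) (i c : Fin 2) :
    Ms (Bm (unitri (arcG e A C0 t))) (Ap (unitri (arcG e A C0 t))) r i c =
      t ^ 2 * Ms (Bm (unitri e)) A r i c := by
  simp only [Ms, Ap_arcG, Bm_arcG, Finset.mul_sum, Matrix.smul_apply, smul_eq_mul]
  refine Finset.sum_congr rfl fun l _ => ?_
  split_ifs <;> ring

theorem Sr_arcG (r : ℕ) (i c : Fin 2) :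
    Sr (unitri (arcG e A C0 t)) r i c = t ^ 2 * (C0 i c - Ms (Bm (unitri e)) A r i c) := by
  simp only [Sr, Pi.sub_apply, Cm_arcG, Ms_arcG]; ring

theorem lft_arcG : unitri (arcG e A C0 t) (lft 1) (lft 0) = t * unitri e (lft 1) (lft 0) := by
  rw [unitri_of_gt _ (by decide), unitri_of_gt _ (by decide)]
  simp [arcG]

theorem bot_arcG : unitri (arcG e A C0 t) (bot 1) (bot 0) = t * unitri e (bot 1) (bot 0) := by
  rw [unitri_arcG_of_two_le e A C0 t _ _ (by simp), unitri_of_gt _ (by decide),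
    unitri_of_gt _ (by decide)]

theorem Um_scale : Um (unitri fun y => t * e y) = 1 + t • (Um (unitri e) - 1) := by
  ext i j
  simp only [Um, submatrix_apply, Matrix.add_apply, Matrix.smul_apply, Matrix.sub_apply, smul_eq_mul, one_apply]
  rcases lt_trichotomy i j with h | h | h
  · rw [unitri_of_lt _ (by simpa using h), unitri_of_lt _ (by simpa using h)]
    simp [h.ne]
  · subst h; simp [unitri_self]
  · have h' : mid j < mid i := by rw [Fin.lt_def]; simpa using h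
    rw [unitri_of_gt _ h', unitri_of_gt _ h']
    simp [h.ne']

theorem arcG_expand (x : Pos 12) : ∃ u, arcG e A C0 t x = t * lead e A x + t ^ 2 * u := by
  unfold arcG lead
  split_ifs with h1 h2 h3 h4 h5
  · exact ⟨_, by rw [mul_zero, zero_add]⟩
  · refine ⟨((Um (unitri e) - 1) * A : Matrix (Fin 8) (Fin 2) D) ⟨x.1.1 - 2, by omega⟩ ⟨x.1.2, h1⟩,
      ?_⟩
    rw [Um_scale, Matrix.add_mul, Matrix.one_mul, Matrix.smul_mul, Matrix.mul_smul]
    simp only [Matrix.add_apply, Matrix.smul_apply, smul_eq_mul]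
    ring
  · exfalso; omega
  · exfalso; omega
  · exact ⟨0, by ring⟩
  · exact ⟨0, by ring⟩

theorem arcG_sub (C1 : M2 D) (x : Pos 12) : t ^ 2 ∣ arcG e A C0 t x - arcG e A C1 t x := by
  unfold arcG
  split_ifs
  · rw [← mul_sub]; exact Dvd.intro _ rfl
  all_goals simp

theorem lead_self (h : ∀ i c, Cm (unitri e) i c = 0) : lead e (Am (unitri e)) = e := by
  funext x
  obtain ⟨⟨i, j⟩, hij⟩ := x
  unfold lead
  split_ifs with h1 h2 h3
  · have := h ⟨i - 10, by omega⟩ ⟨j, h1⟩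
    rw [Cm, unitri_of_gt _ (lft_lt_bot _ _)] at this
    rw [← this]
    congr
    · rw [Fin.ext_iff]; simp only [bot_val]; simp at h2; omega
  · rw [Am, submatrix_apply, unitri_of_gt _ (lft_lt_mid _ _)]
    congr
    · rw [Fin.ext_iff]; simp only [mid_val]; simp at h3; omega
  · rfl
  · rfl

theorem Am_lead : Am (unitri (lead e A)) = A := by
  ext l c
  rw [Am, submatrix_apply, unitri_of_gt _ (lft_lt_mid c l)]
  have h : ¬ (10 ≤ 2 + (l : ℕ)) := by omega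
  have h' : 2 + (l : ℕ) < 10 := by omega
  simp only [lead, lft_val, mid_val, Fin.is_lt, dite_true, h, if_false, le_add_iff_nonneg_right,
    zero_le, add_tsub_cancel_left, Fin.eta, h', and_self]

theorem Bm_lead : Bm (unitri (lead e A)) = Bm (unitri e) := by
  ext i l
  simp only [Bm, submatrix_apply]
  rw [unitri_of_gt _ (mid_lt_bot l i), unitri_of_gt _ (mid_lt_bot l i)]
  have h : ¬ (2 + (l : ℕ) < 2) := by omega
  simp only [lead, mid_val, h, dite_false]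

section Map

variable {D' : Type} [CommRing D'] (f : D →+* D')

theorem map_unitri {n : ℕ} (z : Pos n → D) (i j : Fin n) :
    f (unitri z i j) = unitri (fun y => f (z y)) i j := by
  simp only [unitri, of_apply]
  split_ifs <;> simp

theorem map_Um (z : Pos 12 → D) : (Um (unitri z)).map f = Um (unitri fun y => f (z y)) := by
  ext i j; exact map_unitri f z _ _
theorem map_Am (z : Pos 12 → D) : (Am (unitri z)).map f = Am (unitri fun y => f (z y)) := by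
  ext i j; exact map_unitri f z _ _
theorem map_Bm (z : Pos 12 → D) : (Bm (unitri z)).map f = Bm (unitri fun y => f (z y)) := by
  ext i j; exact map_unitri f z _ _
theorem map_Cm (z : Pos 12 → D) : mp f (Cm (unitri z)) = Cm (unitri fun y => f (z y)) := by
  ext i j; exact map_unitri f z _ _
theorem map_Ap (z : Pos 12 → D) : (Ap (unitri z)).map f = Ap (unitri fun y => f (z y)) := by
  have := RingHom.map_adjugate f (Um (unitri z))
  simp only [RingHom.mapMatrix_apply] at this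
  rw [Ap, Matrix.map_mul, this, map_Um, map_Am, Ap]
theorem map_Ms (B : Matrix (Fin 2) (Fin 8) D) (r : ℕ) :
    mp f (Ms B A r) = Ms (B.map f) (A.map f) r := by
  ext i j
  simp only [mp, Ms, map_sum, map_apply]
  refine Finset.sum_congr rfl fun l _ => ?_
  split_ifs <;> simp
theorem map_Sr (z : Pos 12 → D) (r : ℕ) :
    mp f (Sr (unitri z) r) = Sr (unitri fun y => f (z y)) r := by
  rw [Sr, Sr, ← map_Cm, ← map_Bm, ← map_Ap, ← map_Ms]
  ext i j
  simp [mp]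
theorem map_h11 (z : Pos 12 → D) : f (h11 (unitri z)) = h11 (unitri fun y => f (z y)) := by
  simp only [h11, map_sub, map_mul, map_unitri, ← map_Sr, mp]

theorem map_arcG (x : Pos 12) :
    f (arcG e A C0 t x) = arcG (fun y => f (e y)) (A.map f) (mp f C0) (f t) x := by
  unfold arcG
  split_ifs
  · simp [mp]
  · rw [← map_apply (f := f), Matrix.map_mul, map_Um]
    have : (t • A).map f = f t • A.map f := by ext i j; simp
    simp only [map_mul, this]
  · simp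
  · simp

theorem map_lead (x : Pos 12) : f (lead e A x) = lead (fun y => f (e y)) (A.map f) x := by
  unfold lead
  split_ifs <;> simp

end Map

def dB0 (B : Matrix (Fin 2) (Fin 8) D) : D := B 0 0 * B 1 1 - B 0 1 * B 1 0
def dB1 (B : Matrix (Fin 2) (Fin 8) D) : D := B 0 2 * B 1 3 - B 0 3 * B 1 2
def dB2 (B : Matrix (Fin 2) (Fin 8) D) : D := B 0 4 * B 1 5 - B 0 5 * B 1 4
def dB3 (B : Matrix (Fin 2) (Fin 8) D) : D := B 0 6 * B 1 7 - B 0 7 * B 1 6
def dB (B : Matrix (Fin 2) (Fin 8) D) : D := dB0 B * dB1 B * dB2 B * dB3 B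

def Xd (p q : Fin 5 → Fin 2 → D) (k k' : Fin 5) (i c : Fin 2) : D := p k i * q k c - p k' i * q k' c

def Apar (B : Matrix (Fin 2) (Fin 8) D) (p q : Fin 5 → Fin 2 → D) : Matrix (Fin 8) (Fin 2) D :=
  Matrix.of fun l c =>
    ![dB1 B * dB2 B * dB3 B * (B 1 1 * Xd p q 0 1 0 c - B 0 1 * Xd p q 0 1 1 c),
      dB1 B * dB2 B * dB3 B * (B 0 0 * Xd p q 0 1 1 c - B 1 0 * Xd p q 0 1 0 c),
      dB0 B * dB2 B * dB3 B * (B 1 3 * Xd p q 1 2 0 c - B 0 3 * Xd p q 1 2 1 c),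
      dB0 B * dB2 B * dB3 B * (B 0 2 * Xd p q 1 2 1 c - B 1 2 * Xd p q 1 2 0 c),
      dB0 B * dB1 B * dB3 B * (B 1 5 * Xd p q 2 3 0 c - B 0 5 * Xd p q 2 3 1 c),
      dB0 B * dB1 B * dB3 B * (B 0 4 * Xd p q 2 3 1 c - B 1 4 * Xd p q 2 3 0 c),
      dB0 B * dB1 B * dB2 B * (B 1 7 * Xd p q 3 4 0 c - B 0 7 * Xd p q 3 4 1 c),
      dB0 B * dB1 B * dB2 B * (B 0 6 * Xd p q 3 4 1 c - B 1 6 * Xd p q 3 4 0 c)] l

def Cpar (B : Matrix (Fin 2) (Fin 8) D) (p q : Fin 5 → Fin 2 → D) : M2 D :=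
  fun i c => dB B * (p 0 i * q 0 c)

theorem Ms_explicit (B : Matrix (Fin 2) (Fin 8) D) (i c : Fin 2) :
    Ms B A 0 i c = 0 ∧ Ms B A 2 i c = B i 0 * A 0 c + B i 1 * A 1 c ∧
    Ms B A 4 i c = Ms B A 2 i c + (B i 2 * A 2 c + B i 3 * A 3 c) ∧
    Ms B A 6 i c = Ms B A 4 i c + (B i 4 * A 4 c + B i 5 * A 5 c) ∧
    Ms B A 8 i c = Ms B A 6 i c + (B i 6 * A 6 c + B i 7 * A 7 c) ∧
    Ms B A 1 i c = B i 0 * A 0 c ∧ Ms B A 3 i c = Ms B A 2 i c + B i 2 * A 2 c ∧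
    Ms B A 5 i c = Ms B A 4 i c + B i 4 * A 4 c ∧
    Ms B A 7 i c = Ms B A 6 i c + B i 6 * A 6 c := by
  simp [Ms, Fin.sum_univ_eight]
  refine ⟨?_, ?_, ?_⟩ <;> ring

theorem Cpar_sub_Ms (B : Matrix (Fin 2) (Fin 8) D) (p q : Fin 5 → Fin 2 → D) (k : Fin 5)
    (i c : Fin 2) :
    Cpar B p q i c - Ms B (Apar B p q) (2 * k) i c = dB B * (p k i * q k c) := by
  obtain ⟨m0, m2, m4, m6, m8, -⟩ := Ms_explicit (Apar B p q) B i c
  have e1 : Ms B (Apar B p q) 2 i c = dB B * Xd p q 0 1 i c := by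
    rw [m2]; fin_cases i <;> simp [Apar, dB, dB0] <;> ring
  have e2 : Ms B (Apar B p q) 4 i c = dB B * (Xd p q 0 1 i c + Xd p q 1 2 i c) := by
    rw [m4, e1]; fin_cases i <;> simp [Apar, dB, dB1] <;> ring
  have e3 : Ms B (Apar B p q) 6 i c =
      dB B * (Xd p q 0 1 i c + Xd p q 1 2 i c + Xd p q 2 3 i c) := by
    rw [m6, e2]; fin_cases i <;> simp [Apar, dB, dB2] <;> ring
  have e4 : Ms B (Apar B p q) 8 i c =
      dB B * (Xd p q 0 1 i c + Xd p q 1 2 i c + Xd p q 2 3 i c + Xd p q 3 4 i c) := by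
    rw [m8, e3]; fin_cases i <;> simp [Apar, dB, dB3] <;> ring
  fin_cases k
  · simp [m0, Cpar]
  · change _ - Ms B _ 2 i c = dB B * (p 1 i * q 1 c)
    rw [e1, Cpar, Xd]; ring
  · change _ - Ms B _ 4 i c = dB B * (p 2 i * q 2 c)
    rw [e2, Cpar, Xd, Xd]; ring
  · change _ - Ms B _ 6 i c = dB B * (p 3 i * q 3 c)
    rw [e3, Cpar, Xd, Xd, Xd]; ring
  · change _ - Ms B _ 8 i c = dB B * (p 4 i * q 4 c)
    rw [e4, Cpar, Xd, Xd, Xd, Xd]; ring

theorem Apar_eq {K : Type} [Field K] (B : Matrix (Fin 2) (Fin 8) K) (A : Matrix (Fin 8) (Fin 2) K)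
    (C0 : M2 K) (p q : Fin 5 → Fin 2 → K) (hB : dB B ≠ 0)
    (h : ∀ (k : Fin 5) (i c : Fin 2), C0 i c - Ms B A (2 * k) i c = dB B * (p k i * q k c)) :
    Apar B p q = A := by
  have hB0 : dB0 B ≠ 0 := fun h0 => hB (by simp [dB, h0])
  have hB1 : dB1 B ≠ 0 := fun h0 => hB (by simp [dB, h0])
  have hB2 : dB2 B ≠ 0 := fun h0 => hB (by simp [dB, h0])
  have hB3 : dB3 B ≠ 0 := fun h0 => hB (by simp [dB, h0])
  ext l c
  obtain ⟨m0, m2, m4, m6, m8, -⟩ := Ms_explicit A B 0 c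
  obtain ⟨n0, n2, n4, n6, n8, -⟩ := Ms_explicit A B 1 c
  have a0 : C0 0 c - Ms B A 0 0 c = _ := h 0 0 c
  have a1 : C0 0 c - Ms B A 2 0 c = _ := h 1 0 c
  have a2 : C0 0 c - Ms B A 4 0 c = _ := h 2 0 c
  have a3 : C0 0 c - Ms B A 6 0 c = _ := h 3 0 c
  have a4 : C0 0 c - Ms B A 8 0 c = _ := h 4 0 c
  have b0 : C0 1 c - Ms B A 0 1 c = _ := h 0 1 c
  have b1 : C0 1 c - Ms B A 2 1 c = _ := h 1 1 c
  have b2 : C0 1 c - Ms B A 4 1 c = _ := h 2 1 c
  have b3 : C0 1 c - Ms B A 6 1 c = _ := h 3 1 c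
  have b4 : C0 1 c - Ms B A 8 1 c = _ := h 4 1 c
  have x0 : dB B * Xd p q 0 1 0 c = B 0 0 * A 0 c + B 0 1 * A 1 c := by
    unfold Xd; linear_combination a1 - a0 - m0 + m2
  have y0 : dB B * Xd p q 0 1 1 c = B 1 0 * A 0 c + B 1 1 * A 1 c := by
    unfold Xd; linear_combination b1 - b0 - n0 + n2
  have x1 : dB B * Xd p q 1 2 0 c = B 0 2 * A 2 c + B 0 3 * A 3 c := by
    unfold Xd; linear_combination a2 - a1 + m4
  have y1 : dB B * Xd p q 1 2 1 c = B 1 2 * A 2 c + B 1 3 * A 3 c := by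
    unfold Xd; linear_combination b2 - b1 + n4
  have x2 : dB B * Xd p q 2 3 0 c = B 0 4 * A 4 c + B 0 5 * A 5 c := by
    unfold Xd; linear_combination a3 - a2 + m6
  have y2 : dB B * Xd p q 2 3 1 c = B 1 4 * A 4 c + B 1 5 * A 5 c := by
    unfold Xd; linear_combination b3 - b2 + n6
  have x3 : dB B * Xd p q 3 4 0 c = B 0 6 * A 6 c + B 0 7 * A 7 c := by
    unfold Xd; linear_combination a4 - a3 + m8
  have y3 : dB B * Xd p q 3 4 1 c = B 1 6 * A 6 c + B 1 7 * A 7 c := by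
    unfold Xd; linear_combination b4 - b3 + n8
  unfold dB at x0 y0 x1 y1 x2 y2 x3 y3
  fin_cases l
  · apply mul_left_cancel₀ hB0
    change dB0 B * (dB1 B * dB2 B * dB3 B * (B 1 1 * Xd p q 0 1 0 c - B 0 1 * Xd p q 0 1 1 c)) =
      (B 0 0 * B 1 1 - B 0 1 * B 1 0) * A 0 c
    linear_combination B 1 1 * x0 - B 0 1 * y0
  · apply mul_left_cancel₀ hB0
    change dB0 B * (dB1 B * dB2 B * dB3 B * (B 0 0 * Xd p q 0 1 1 c - B 1 0 * Xd p q 0 1 0 c)) =
      (B 0 0 * B 1 1 - B 0 1 * B 1 0) * A 1 c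
    linear_combination B 0 0 * y0 - B 1 0 * x0
  · apply mul_left_cancel₀ hB1
    change dB1 B * (dB0 B * dB2 B * dB3 B * (B 1 3 * Xd p q 1 2 0 c - B 0 3 * Xd p q 1 2 1 c)) =
      (B 0 2 * B 1 3 - B 0 3 * B 1 2) * A 2 c
    linear_combination B 1 3 * x1 - B 0 3 * y1
  · apply mul_left_cancel₀ hB1
    change dB1 B * (dB0 B * dB2 B * dB3 B * (B 0 2 * Xd p q 1 2 1 c - B 1 2 * Xd p q 1 2 0 c)) =
      (B 0 2 * B 1 3 - B 0 3 * B 1 2) * A 3 c
    linear_combination B 0 2 * y1 - B 1 2 * x1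
  · apply mul_left_cancel₀ hB2
    change dB2 B * (dB0 B * dB1 B * dB3 B * (B 1 5 * Xd p q 2 3 0 c - B 0 5 * Xd p q 2 3 1 c)) =
      (B 0 4 * B 1 5 - B 0 5 * B 1 4) * A 4 c
    linear_combination B 1 5 * x2 - B 0 5 * y2
  · apply mul_left_cancel₀ hB2
    change dB2 B * (dB0 B * dB1 B * dB3 B * (B 0 4 * Xd p q 2 3 1 c - B 1 4 * Xd p q 2 3 0 c)) =
      (B 0 4 * B 1 5 - B 0 5 * B 1 4) * A 5 c
    linear_combination B 0 4 * y2 - B 1 4 * x2
  · apply mul_left_cancel₀ hB3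
    change dB3 B * (dB0 B * dB1 B * dB2 B * (B 1 7 * Xd p q 3 4 0 c - B 0 7 * Xd p q 3 4 1 c)) =
      (B 0 6 * B 1 7 - B 0 7 * B 1 6) * A 6 c
    linear_combination B 1 7 * x3 - B 0 7 * y3
  · apply mul_left_cancel₀ hB3
    change dB3 B * (dB0 B * dB1 B * dB2 B * (B 0 6 * Xd p q 3 4 1 c - B 1 6 * Xd p q 3 4 0 c)) =
      (B 0 6 * B 1 7 - B 0 7 * B 1 6) * A 7 c
    linear_combination B 0 6 * y3 - B 1 6 * x3

theorem map_dB {D' : Type} [CommRing D'] (f : D →+* D') (B : Matrix (Fin 2) (Fin 8) D) :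
    f (dB B) = dB (B.map f) := by
  simp [dB, dB0, dB1, dB2, dB3]

theorem map_Apar {D' : Type} [CommRing D'] (f : D →+* D') (B : Matrix (Fin 2) (Fin 8) D)
    (p q : Fin 5 → Fin 2 → D) :
    (Apar B p q).map f = Apar (B.map f) (fun k i => f (p k i)) (fun k i => f (q k i)) := by
  ext l c
  fin_cases l <;> simp [Apar, dB0, dB1, dB2, dB3, Xd]

theorem map_Cpar {D' : Type} [CommRing D'] (f : D →+* D') (B : Matrix (Fin 2) (Fin 8) D)
    (p q : Fin 5 → Fin 2 → D) :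
    mp f (Cpar B p q) = Cpar (B.map f) (fun k i => f (p k i)) (fun k i => f (q k i)) := by
  ext i c
  simp [mp, Cpar, map_dB]

def arcP (e : Pos 12 → D) (p q : Fin 5 → Fin 2 → D) (t : D) : Pos 12 → D :=
  arcG e (Apar (Bm (unitri e)) p q) (Cpar (Bm (unitri e)) p q) t

theorem map_arcP {D' : Type} [CommRing D'] (f : D →+* D') (p q : Fin 5 → Fin 2 → D)
    (x : Pos 12) : f (arcP e p q t x) =
      arcP (fun y => f (e y)) (fun k i => f (p k i)) (fun k i => f (q k i)) (f t) x := by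
  rw [arcP, map_arcG, map_Apar, map_Cpar, map_Bm, arcP]

theorem qf_Sr_arcP (p q : Fin 5 → Fin 2 → D) (k : Fin 5) :
    qf (Sr (unitri (arcP e p q t)) (2 * k)) = 0 := by
  simp only [qf, arcP, Sr_arcG, Cpar_sub_Ms]
  ring

end Pool.Agent.Lib.MP_9fb153_ag
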