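import Mathlib

/-!
Algebra of the determinant form on 2 by 2 matrices.
-/

namespace Pool.Agent.Lib.MP_9fb153_ag

abbrev M2 (A : Type) : Type := Fin 2 → Fin 2 → A

section Defs

variable {A : Type} [CommRing A]

def qf (X : M2 A) : A := X 0 0 * X 1 1 - X 0 1 * X 1 0

def bf (X Y : M2 A) : A := X 0 0 * Y 1 1 + X 1 1 * Y 0 0 - X 0 1 * Y 1 0 - X 1 0 * Y 0 1

def d3 (a1 a2 a3 b1 b2 b3 c1 c2 c3 : A) : A :=
  a1 * (b2 * c3 - b3 * c2) - a2 * (b1 * c3 - b3 * c1) + a3 * (b1 * c2 - b2 * c1)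

def nv (U V W : M2 A) : M2 A :=
  ![![d3 (U 0 0) (U 0 1) (U 1 0) (V 0 0) (V 0 1) (V 1 0) (W 0 0) (W 0 1) (W 1 0),
      d3 (U 0 0) (U 0 1) (U 1 1) (V 0 0) (V 0 1) (V 1 1) (W 0 0) (W 0 1) (W 1 1)],
    ![-d3 (U 0 0) (U 1 0) (U 1 1) (V 0 0) (V 1 0) (V 1 1) (W 0 0) (W 1 0) (W 1 1),
      -d3 (U 0 1) (U 1 0) (U 1 1) (V 0 1) (V 1 0) (V 1 1) (W 0 1) (W 1 0) (W 1 1)]]

/-- Gram determinant -/
def gram (U V W : M2 A) : A :=
  d3 (bf U U) (bf U V) (bf U W) (bf U V) (bf V V) (bf V W) (bf U W) (bf V W) (bf W W)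

def nu1 (U V W : M2 A) (a b c : A) : A :=
  d3 a b c (bf U V) (bf V V) (bf V W) (bf U W) (bf V W) (bf W W)

def nu2 (U V W : M2 A) (a b c : A) : A :=
  d3 (bf U U) (bf U V) (bf U W) a b c (bf U W) (bf V W) (bf W W)

def nu3 (U V W : M2 A) (a b c : A) : A :=
  d3 (bf U U) (bf U V) (bf U W) (bf U V) (bf V V) (bf V W) a b c

/-- the second equation of the embedded locus -/
def yf (U V W Y : M2 A) : A :=
  gram U V W * qf Y - (nu1 U V W (bf Y U) (bf Y V) (bf Y W) * qf U +
    nu2 U V W (bf Y U) (bf Y V) (bf Y W) * qf V + nu3 U V W (bf Y U) (bf Y V) (bf Y W) * qf W)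

def rho (U V W : M2 A) : A :=
  nu1 U V W (qf U) (qf V) (qf W) * qf U + nu2 U V W (qf U) (qf V) (qf W) * qf V +
    nu3 U V W (qf U) (qf V) (qf W) * qf W

theorem bf_comm (X Y : M2 A) : bf X Y = bf Y X := by unfold bf; ring

theorem bf_self (X : M2 A) : bf X X = 2 * qf X := by unfold bf qf; ring

theorem qf_sub (X Y : M2 A) : qf (X - Y) = qf X - bf X Y + qf Y := by
  simp only [qf, bf, Pi.sub_apply]; ring

theorem nv00 (U V W : M2 A) : nv U V W 0 0 =
  d3 (U 0 0) (U 0 1) (U 1 0) (V 0 0) (V 0 1) (V 1 0) (W 0 0) (W 0 1) (W 1 0) := rfl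
theorem nv01 (U V W : M2 A) : nv U V W 0 1 =
  d3 (U 0 0) (U 0 1) (U 1 1) (V 0 0) (V 0 1) (V 1 1) (W 0 0) (W 0 1) (W 1 1) := rfl
theorem nv10 (U V W : M2 A) : nv U V W 1 0 =
  -d3 (U 0 0) (U 1 0) (U 1 1) (V 0 0) (V 1 0) (V 1 1) (W 0 0) (W 1 0) (W 1 1) := rfl
theorem nv11 (U V W : M2 A) : nv U V W 1 1 =
  -d3 (U 0 1) (U 1 0) (U 1 1) (V 0 1) (V 1 0) (V 1 1) (W 0 1) (W 1 0) (W 1 1) := rfl

theorem bf_nv1 (U V W : M2 A) : bf (nv U V W) U = 0 := by
  simp only [bf, nv00, nv01, nv10, nv11, d3]; ring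
theorem bf_nv2 (U V W : M2 A) : bf (nv U V W) V = 0 := by
  simp only [bf, nv00, nv01, nv10, nv11, d3]; ring
theorem bf_nv3 (U V W : M2 A) : bf (nv U V W) W = 0 := by
  simp only [bf, nv00, nv01, nv10, nv11, d3]; ring
theorem bf_nv_nv (U V W : M2 A) : bf (nv U V W) (nv U V W) = gram U V W := by
  simp only [gram, bf, nv00, nv01, nv10, nv11, d3]; ring

theorem decomp (U V W X : M2 A) (i j : Fin 2) :
    gram U V W * X i j = nu1 U V W (bf X U) (bf X V) (bf X W) * U i j +
      nu2 U V W (bf X U) (bf X V) (bf X W) * V i j +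
      nu3 U V W (bf X U) (bf X V) (bf X W) * W i j + bf (nv U V W) X * nv U V W i j := by
  fin_cases i <;> fin_cases j <;>
    simp only [Fin.zero_eta, Fin.mk_one, Fin.isValue, gram, nu1, nu2, nu3, bf, nv00, nv01, nv10,
      nv11, d3] <;> ring

theorem decomp_bf (U V W X Y : M2 A) :
    gram U V W * bf Y X = nu1 U V W (bf X U) (bf X V) (bf X W) * bf Y U +
      nu2 U V W (bf X U) (bf X V) (bf X W) * bf Y V +
      nu3 U V W (bf X U) (bf X V) (bf X W) * bf Y W + bf (nv U V W) X * bf (nv U V W) Y := by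
  have h00 := decomp U V W X 0 0
  have h01 := decomp U V W X 0 1
  have h10 := decomp U V W X 1 0
  have h11 := decomp U V W X 1 1
  generalize nu1 U V W (bf X U) (bf X V) (bf X W) = a at *
  generalize nu2 U V W (bf X U) (bf X V) (bf X W) = b at *
  generalize nu3 U V W (bf X U) (bf X V) (bf X W) = c at *
  generalize bf (nv U V W) X = s at *
  generalize nv U V W = n at *
  generalize gram U V W = g at *
  unfold bf
  linear_combination Y 1 1 * h00 + Y 0 0 * h11 - Y 1 0 * h01 - Y 0 1 * h10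

end Defs

section Map

variable {A B F : Type} [CommRing A] [CommRing B] [FunLike F A B] [RingHomClass F A B] (f : F)

def mp (X : M2 A) : M2 B := fun i j => f (X i j)

theorem map_qf (X : M2 A) : f (qf X) = qf (mp f X) := by simp [qf, mp]
theorem map_bf (X Y : M2 A) : f (bf X Y) = bf (mp f X) (mp f Y) := by simp [bf, mp]
theorem map_d3 (a1 a2 a3 b1 b2 b3 c1 c2 c3 : A) : f (d3 a1 a2 a3 b1 b2 b3 c1 c2 c3) =
    d3 (f a1) (f a2) (f a3) (f b1) (f b2) (f b3) (f c1) (f c2) (f c3) := by simp [d3]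
theorem mp_nv (U V W : M2 A) : mp f (nv U V W) = nv (mp f U) (mp f V) (mp f W) := by
  funext i j
  fin_cases i <;> fin_cases j <;>
    simp only [Fin.zero_eta, Fin.mk_one, Fin.isValue, mp, nv00, nv01, nv10, nv11, map_d3, map_neg]
theorem map_gram (U V W : M2 A) : f (gram U V W) = gram (mp f U) (mp f V) (mp f W) := by
  simp only [gram, map_d3, map_bf]
theorem map_nu1 (U V W : M2 A) (a b c : A) :
    f (nu1 U V W a b c) = nu1 (mp f U) (mp f V) (mp f W) (f a) (f b) (f c) := by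
  simp only [nu1, map_d3, map_bf]
theorem map_nu2 (U V W : M2 A) (a b c : A) :
    f (nu2 U V W a b c) = nu2 (mp f U) (mp f V) (mp f W) (f a) (f b) (f c) := by
  simp only [nu2, map_d3, map_bf]
theorem map_nu3 (U V W : M2 A) (a b c : A) :
    f (nu3 U V W a b c) = nu3 (mp f U) (mp f V) (mp f W) (f a) (f b) (f c) := by
  simp only [nu3, map_d3, map_bf]
theorem map_yf (U V W Y : M2 A) :
    f (yf U V W Y) = yf (mp f U) (mp f V) (mp f W) (mp f Y) := by
  simp only [yf, map_sub, map_add, map_mul, map_gram, map_nu1, map_nu2, map_nu3, map_bf, map_qf]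
theorem map_rho (U V W : M2 A) : f (rho U V W) = rho (mp f U) (mp f V) (mp f W) := by
  simp only [rho, map_add, map_mul, map_nu1, map_nu2, map_nu3, map_qf]

end Map

/-- The relations in the graded ring. -/
theorem graded_relations {A B G : Type} [CommRing A] [CommRing B] [CommRing G]
    (ι : A →+* B) (π : A →+* G) (T : B) (hsh : ∀ x y : A, T * ι x = ι y → π x = 0)
    (C U V W Y : M2 A) (h0 : qf C = 0) (hU : T * ι (bf C U) = ι (qf U))
    (hV : T * ι (bf C V) = ι (qf V)) (hW : T * ι (bf C W) = ι (qf W))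
    (hY : T * ι (bf C Y) = ι (qf Y)) :
    (∀ i j, π (gram U V W * C i j) * π (bf (nv U V W) C) = 0) ∧
      π (bf (nv U V W) Y) * π (bf (nv U V W) C) = 0 ∧
      π (yf U V W Y) * π (bf (nv U V W) C) = 0 := by
  have bU := hsh _ _ hU
  have bV := hsh _ _ hV
  have bW := hsh _ _ hW
  have bY := hsh _ _ hY
  have eCC := decomp_bf U V W C C
  rw [bf_self, h0] at eCC
  have eYC := decomp_bf U V W Y C
  have n1 : π (nu1 U V W (bf C U) (bf C V) (bf C W)) = 0 := by
    simp only [nu1, map_d3, bU, bV, bW]; simp [d3]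
  have n2 : π (nu2 U V W (bf C U) (bf C V) (bf C W)) = 0 := by
    simp only [nu2, map_d3, bU, bV, bW]; simp [d3]
  have n3 : π (nu3 U V W (bf C U) (bf C V) (bf C W)) = 0 := by
    simp only [nu3, map_d3, bU, bV, bW]; simp [d3]
  have ss : π (bf (nv U V W) C) * π (bf (nv U V W) C) = 0 := by
    have := congrArg π eCC
    simp only [map_add, map_mul, bU, bV, bW, mul_zero, zero_add, map_zero] at this
    exact this.symm
  refine ⟨fun i j => ?_, ?_, ?_⟩
  · rw [decomp U V W C i j]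
    simp only [map_add, map_mul, n1, n2, n3, zero_mul, zero_add]
    linear_combination π (nv U V W i j) * ss
  · have := congrArg π eYC
    simp only [map_add, map_mul, bU, bV, bW, bY, mul_zero, zero_add] at this
    exact this.symm
  · rw [← map_mul]
    apply hsh _ (-(bf (nv U V W) Y * rho U V W))
    have e1 := congrArg ι eYC
    have e2 := congrArg ι eCC
    simp only [map_add, map_mul, mul_zero, map_zero] at e1 e2
    have m1 : T * ι (nu1 U V W (bf C U) (bf C V) (bf C W)) = ι (nu1 U V W (qf U) (qf V) (qf W)) := by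
      simp only [nu1, map_d3, ← hU, ← hV, ← hW]; simp only [d3]; ring
    have m2 : T * ι (nu2 U V W (bf C U) (bf C V) (bf C W)) = ι (nu2 U V W (qf U) (qf V) (qf W)) := by
      simp only [nu2, map_d3, ← hU, ← hV, ← hW]; simp only [d3]; ring
    have m3 : T * ι (nu3 U V W (bf C U) (bf C V) (bf C W)) = ι (nu3 U V W (qf U) (qf V) (qf W)) := by
      simp only [nu3, map_d3, ← hU, ← hV, ← hW]; simp only [d3]; ring
    simp only [yf, rho, map_neg, map_add, map_mul, map_sub, ← m1, ← m2, ← m3, ← hU, ← hV, ← hW,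
      ← hY]
    linear_combination (T * T * ι (bf (nv U V W) C)) * e1 - (T * T * ι (bf (nv U V W) Y)) * e2

/-- Existence of an apex. -/
theorem exists_apex {K : Type} [Field K] [IsAlgClosed K] (U V W Y : M2 K)
    (hg : gram U V W ≠ 0) (hD : bf (nv U V W) Y = 0) (hy : yf U V W Y = 0) :
    ∃ C : M2 K, qf C * 2 = 0 ∧ bf C U = qf U ∧ bf C V = qf V ∧ bf C W = qf W ∧ bf C Y = qf Y := by
  obtain ⟨σ, hσ⟩ := IsAlgClosed.exists_pow_nat_eq (-rho U V W) (n := 2) (by norm_num)
  set a := nu1 U V W (qf U) (qf V) (qf W) with ha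
  set b := nu2 U V W (qf U) (qf V) (qf W) with hb
  set c := nu3 U V W (qf U) (qf V) (qf W) with hc
  let C : M2 K := fun i j =>
    (a * U i j + b * V i j + c * W i j + σ * nv U V W i j) / gram U V W
  have key : ∀ X, bf C X =
      (a * bf U X + b * bf V X + c * bf W X + σ * bf (nv U V W) X) / gram U V W := by
    intro X
    simp only [C, bf]
    field_simp
    ring
  have kU : bf C U = qf U := by
    rw [key, bf_nv1, div_eq_iff hg, ha, hb, hc, bf_comm V U, bf_comm W U]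
    simp only [nu1, nu2, nu3, gram, d3]; ring
  have kV : bf C V = qf V := by
    rw [key, bf_nv2, div_eq_iff hg, ha, hb, hc, bf_comm W V]
    simp only [nu1, nu2, nu3, gram, d3]; ring
  have kW : bf C W = qf W := by
    rw [key, bf_nv3, div_eq_iff hg, ha, hb, hc]
    simp only [nu1, nu2, nu3, gram, d3]; ring
  have kn : bf C (nv U V W) = σ := by
    rw [key, bf_comm U, bf_comm V, bf_comm W, bf_nv1, bf_nv2, bf_nv3, bf_nv_nv, div_eq_iff hg]
    ring
  refine ⟨C, ?_, kU, kV, kW, ?_⟩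
  · rw [mul_comm, ← bf_self, key, bf_comm U, bf_comm V, bf_comm W, bf_comm (nv U V W), kU, kV, kW,
      kn, div_eq_iff hg]
    unfold rho at hσ
    linear_combination hσ
  · have e := decomp_bf U V W Y C
    rw [kU, kV, kW, hD] at e
    unfold yf at hy
    apply mul_left_cancel₀ hg
    linear_combination e - hy

theorem exists_rank_one {K : Type} [Field K] (N : M2 K) (h : qf N = 0) :
    ∃ p q : Fin 2 → K, ∀ i j, N i j = p i * q j := by
  unfold qf at h
  by_cases h00 : N 0 0 = 0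
  · by_cases h01 : N 0 1 = 0
    · refine ⟨![0, 1], ![N 1 0, N 1 1], fun i j => ?_⟩
      fin_cases i <;> fin_cases j <;> simp [h00, h01]
    · refine ⟨![1, N 1 1 / N 0 1], ![N 0 0, N 0 1], fun i j => ?_⟩
      have h10 : N 1 0 = 0 := by
        rw [h00, zero_mul, zero_sub, neg_eq_zero] at h
        exact (mul_eq_zero.1 h).resolve_left h01
      fin_cases i <;> fin_cases j <;> simp [h00, h01, h10]
  · refine ⟨![1, N 1 0 / N 0 0], ![N 0 0, N 0 1], fun i j => ?_⟩
    fin_cases i <;> fin_cases j <;> simp [h00]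
    field_simp
    linear_combination h

end Pool.Agent.Lib.MP_9fb153_ag
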