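import Pool.Agent.Lib.MP_9fb153_ag.Flags
import Pool.Agent.Lib.MP_9fb153_ag.Quad

/-!
The example in `S_12`: description of the Schubert cell in the chart.
-/

namespace Pool.Agent.Lib.MP_9fb153_ag

open Matrix

def vP : Equiv.Perm (Fin 12) :=
  ⟨![0, 1, 9, 8, 7, 6, 5, 4, 3, 2, 10, 11], ![0, 1, 9, 8, 7, 6, 5, 4, 3, 2, 10, 11],
    by decide, by decide⟩

def wP : Equiv.Perm (Fin 12) :=
  ⟨![11, 9, 10, 7, 8, 5, 6, 3, 4, 1, 2, 0], ![11, 9, 10, 7, 8, 5, 6, 3, 4, 1, 2, 0],
    by decide, by decide⟩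

def lft (c : Fin 2) : Fin 12 := Fin.castAdd 2 (Fin.castAdd 8 c)
def mid (l : Fin 8) : Fin 12 := Fin.castAdd 2 (Fin.natAdd 2 l)
def bot (i : Fin 2) : Fin 12 := Fin.natAdd 10 i

@[simp] theorem lft_val (c : Fin 2) : (lft c : ℕ) = c := rfl
@[simp] theorem mid_val (c : Fin 8) : (mid c : ℕ) = 2 + c := rfl
@[simp] theorem bot_val (c : Fin 2) : (bot c : ℕ) = 10 + c := rfl

theorem sum_twelve {M : Type} [AddCommMonoid M] (f : Fin 12 → M) :
    ∑ j, f j = ∑ c, f (lft c) + ∑ l, f (mid l) + ∑ i, f (bot i) := by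
  have h1 := Fin.sum_univ_add (a := 10) (b := 2) f
  have h2 := Fin.sum_univ_add (a := 2) (b := 8) (fun j => f (Fin.castAdd 2 j))
  rw [h1, h2]
  rfl

theorem idx_cases {P : Fin 12 → Prop} (h1 : ∀ c, P (lft c)) (h2 : ∀ l, P (mid l))
    (h3 : ∀ i, P (bot i)) (j : Fin 12) : P j := by
  refine Fin.addCases (m := 10) (n := 2) (fun j => ?_) h3 j
  exact Fin.addCases (m := 2) (n := 8) (motive := fun j => P (Fin.castAdd 2 j)) h1 h2 j

theorem vP_lft (c : Fin 2) : (vP (lft c) : ℕ) = c := by revert c; decide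
theorem vP_mid (c : Fin 8) : (vP (mid c) : ℕ) = 9 - c := by revert c; decide
theorem vP_bot (c : Fin 2) : (vP (bot c) : ℕ) = 10 + c := by revert c; decide

section Blocks

variable {R : Type} [CommRing R]

def Um (Z : Matrix (Fin 12) (Fin 12) R) : Matrix (Fin 8) (Fin 8) R := Z.submatrix mid mid
def Am (Z : Matrix (Fin 12) (Fin 12) R) : Matrix (Fin 8) (Fin 2) R := Z.submatrix mid lft
def Bm (Z : Matrix (Fin 12) (Fin 12) R) : Matrix (Fin 2) (Fin 8) R := Z.submatrix bot mid
def Cm (Z : Matrix (Fin 12) (Fin 12) R) : M2 R := fun i c => Z (bot i) (lft c)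
def Ap (Z : Matrix (Fin 12) (Fin 12) R) : Matrix (Fin 8) (Fin 2) R := (Um Z).adjugate * Am Z
def Ms (B : Matrix (Fin 2) (Fin 8) R) (A : Matrix (Fin 8) (Fin 2) R) (r : ℕ) : M2 R :=
  fun i c => ∑ l : Fin 8, if (l : ℕ) < r then B i l * A l c else 0
def Sr (Z : Matrix (Fin 12) (Fin 12) R) (r : ℕ) : M2 R := Cm Z - Ms (Bm Z) (Ap Z) r
def h11 (Z : Matrix (Fin 12) (Fin 12) R) : R :=
  (Sr Z 8 1 0 - Sr Z 8 1 1 * Z (lft 1) (lft 0)) -
    Z (bot 1) (bot 0) * (Sr Z 8 0 0 - Sr Z 8 0 1 * Z (lft 1) (lft 0))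

theorem unitri_of_lt {n : ℕ} (z : Pos n → R) {i j : Fin n} (h : (i : ℕ) < j) :
    unitri z i j = 0 := by
  have h' : i < j := h
  simp [unitri, h'.not_gt, h'.ne]

theorem unitri_self {n : ℕ} (z : Pos n → R) (i : Fin n) : unitri z i i = 1 := by
  simp [unitri]

theorem unitri_of_gt {n : ℕ} (z : Pos n → R) {i j : Fin n} (h : j < i) :
    unitri z i j = z ⟨(i, j), h⟩ := by
  simp [unitri, h]

theorem Um_of_lt (z : Pos 12 → R) {i j : Fin 8} (h : i < j) : Um (unitri z) i j = 0 :=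
  unitri_of_lt z (by simpa using h)

theorem Um_self (z : Pos 12 → R) (i : Fin 8) : Um (unitri z) i i = 1 := unitri_self z _

theorem det_Um (z : Pos 12 → R) : (Um (unitri z)).det = 1 := by
  rw [Matrix.det_of_isLowerTriangular]
  · simp [Um_self]
  · intro i j h
    exact Um_of_lt z h

theorem Um_mul_Ap (z : Pos 12 → R) : Um (unitri z) * Ap (unitri z) = Am (unitri z) := by
  rw [Ap, ← Matrix.mul_assoc, mul_adjugate, det_Um, one_smul, Matrix.one_mul]

theorem Ap_eq_of (z : Pos 12 → R) (A : Matrix (Fin 8) (Fin 2) R)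
    (h : Am (unitri z) = Um (unitri z) * A) : Ap (unitri z) = A := by
  rw [Ap, h, ← Matrix.mul_assoc, adjugate_mul, det_Um, one_smul, Matrix.one_mul]

theorem tri_solve (z : Pos 12 → R) (r : ℕ) (y : Fin 8 → R)
    (h : ∀ l : Fin 8, (l : ℕ) < r → (Um (unitri z) *ᵥ y) l = 0) :
    ∀ l : Fin 8, (l : ℕ) < r → y l = 0 := by
  intro l
  induction l using Fin.strong_induction_on with
  | _ l ih =>
    intro hl
    have := h l hl
    rw [mulVec, dotProduct, Finset.sum_eq_single l, Um_self, one_mul] at this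
    · exact this
    · intro i _ hi
      rcases lt_or_gt_of_ne hi with h | h
      · rw [ih i h (lt_trans h hl), mul_zero]
      · rw [Um_of_lt z h, zero_mul]
    · simp

theorem mulVec_mid (z : Pos 12 → R) (x : Fin 12 → R) (l : Fin 8) :
    (unitri z *ᵥ x) (mid l) =
      (Um (unitri z) *ᵥ (Ap (unitri z) *ᵥ (x ∘ lft) + x ∘ mid)) l := by
  rw [mulVec_add, mulVec_mulVec, Um_mul_Ap, mulVec, dotProduct, sum_twelve]
  have : ∑ i, unitri z (mid l) (bot i) * x (bot i) = 0 := by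
    refine Finset.sum_eq_zero fun i _ => ?_
    rw [unitri_of_lt z (by simp; omega), zero_mul]
  rw [this, add_zero]
  rfl

theorem mulVec_bot (z : Pos 12 → R) (x : Fin 12 → R) (r : ℕ)
    (h1 : ∀ l : Fin 8, (l : ℕ) < r → (Ap (unitri z) *ᵥ (x ∘ lft) + x ∘ mid) l = 0)
    (h2 : ∀ l : Fin 8, r ≤ l → x (mid l) = 0) (i : Fin 2) :
    (unitri z *ᵥ x) (bot i) = Sr (unitri z) r i 0 * x (lft 0) + Sr (unitri z) r i 1 * x (lft 1) +
      (unitri z (bot i) (bot 0) * x (bot 0) + unitri z (bot i) (bot 1) * x (bot 1)) := by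
  rw [mulVec, dotProduct, sum_twelve]
  simp only [Fin.sum_univ_two, Sr, Pi.sub_apply, Ms, Cm, sub_mul, Finset.sum_mul]
  have : ∑ l, unitri z (bot i) (mid l) * x (mid l) =
      -(∑ l : Fin 8, (if (l : ℕ) < r then Bm (unitri z) i l * Ap (unitri z) l 0 else 0) * x (lft 0) +
        ∑ l : Fin 8,
          (if (l : ℕ) < r then Bm (unitri z) i l * Ap (unitri z) l 1 else 0) * x (lft 1)) := by
    rw [← Finset.sum_add_distrib, ← Finset.sum_neg_distrib]
    refine Finset.sum_congr rfl fun l _ => ?_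
    split_ifs with hl
    · have := h1 l hl
      simp only [Pi.add_apply, mulVec, dotProduct, Fin.sum_univ_two, Function.comp] at this
      have e : Bm (unitri z) i l = unitri z (bot i) (mid l) := rfl
      rw [e]
      linear_combination unitri z (bot i) (mid l) * this
    · rw [h2 l (by omega)]; ring
  rw [this]
  ring

end Blocks

theorem qf_of_meets (z : Pos 12 → ℂ) (r : ℕ) (hr : r ≤ 8) (h : Meets (chart vP z) (2 + r)) :
    qf (Sr (unitri z) r) = 0 := by
  obtain ⟨x, hne, hx, h⟩ := (meets_chart_iff _ _ _).1 h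
  have h1 := tri_solve z r _ (fun l hl => by
    rw [← mulVec_mid]; exact h _ (by rw [vP_mid]; omega))
  have h2 : ∀ l : Fin 8, r ≤ l → x (mid l) = 0 := fun l hl => hx _ (by simp; omega)
  have h3 : ∀ i, x (bot i) = 0 := fun i => hx _ (by simp; omega)
  have e0 := mulVec_bot z x r h1 h2 0
  have e1 := mulVec_bot z x r h1 h2 1
  rw [h _ (by rw [vP_bot]; omega), h3, h3] at e0 e1
  by_contra hq
  have x0 : x (lft 0) = 0 := by
    apply (mul_eq_zero.1 (_ : qf (Sr (unitri z) r) * x (lft 0) = 0)).resolve_left hq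
    unfold qf
    linear_combination Sr (unitri z) r 0 1 * e1 - Sr (unitri z) r 1 1 * e0
  have x1 : x (lft 1) = 0 := by
    apply (mul_eq_zero.1 (_ : qf (Sr (unitri z) r) * x (lft 1) = 0)).resolve_left hq
    unfold qf
    linear_combination Sr (unitri z) r 1 0 * e0 - Sr (unitri z) r 0 0 * e1
  apply hne
  funext j
  refine idx_cases (P := fun j => x j = 0) ?_ ?_ h3 j
  · intro c; fin_cases c
    · exact x0
    · exact x1
  · intro l
    by_cases hl : (l : ℕ) < r
    · have := h1 l hl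
      simpa [mulVec, dotProduct, x0, x1] using this
    · exact h2 l (by omega)

theorem meets_of_qf (z : Pos 12 → ℂ) (r : ℕ) (hr : r ≤ 8) (h : qf (Sr (unitri z) r) = 0) :
    Meets (chart vP z) (2 + r) := by
  have hdet : (Matrix.of (Sr (unitri z) r)).det = 0 := by
    rw [det_fin_two]; exact h
  obtain ⟨x', hne, hx'⟩ := Matrix.exists_mulVec_eq_zero_iff.2 hdet
  let y : Fin 8 → ℂ := fun l => if (l : ℕ) < r then -(Ap (unitri z) *ᵥ x') l else 0
  let x : Fin 12 → ℂ := Fin.append (m := 10) (n := 2) (Fin.append x' y) 0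
  have x1 : ∀ c, x (lft c) = x' c := fun c => by
    simp only [x, lft, Fin.append_left]
  have x2 : ∀ c, x (mid c) = y c := fun c => by
    simp only [x, mid, Fin.append_left, Fin.append_right]
  have x3 : ∀ c, x (bot c) = 0 := fun c => by
    simp only [x, bot, Fin.append_right]; rfl
  have xl : x ∘ lft = x' := funext x1
  have h1 : ∀ l : Fin 8, (l : ℕ) < r → (Ap (unitri z) *ᵥ (x ∘ lft) + x ∘ mid) l = 0 := by
    intro l hl
    simp [xl, x2, y, hl]
  have h2 : ∀ l : Fin 8, r ≤ l → x (mid l) = 0 := fun l hl => by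
    simp [x2, y, not_lt.2 hl]
  refine (meets_chart_iff _ _ _).2 ⟨x, ?_, ?_, ?_⟩
  · intro h0
    apply hne
    rw [← xl, h0]; rfl
  · refine idx_cases ?_ ?_ ?_
    · intro c hc; simp at hc; omega
    · intro l hl; exact h2 l (by simpa using hl)
    · intro i _; exact x3 i
  · refine idx_cases ?_ ?_ ?_
    · intro c hc; rw [vP_lft] at hc; omega
    · intro l hl
      rw [vP_mid] at hl
      rw [mulVec_mid, mulVec, dotProduct]
      refine Finset.sum_eq_zero fun l' _ => ?_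
      by_cases hl' : (l' : ℕ) < r
      · rw [h1 l' hl', mul_zero]
      · rw [Um_of_lt z (by rw [Fin.lt_def]; omega), zero_mul]
    · intro i _
      rw [mulVec_bot z x r h1 h2, x3, x3, x1, x1]
      have := congrFun hx' i
      simp only [mulVec, dotProduct, Fin.sum_univ_two, of_apply, Pi.zero_apply] at this
      linear_combination this

theorem of_meets_one (z : Pos 12 → ℂ) (h : Meets (chart vP z) 1) : Cm (unitri z) 1 0 = 0 := by
  obtain ⟨x, hne, hx, h⟩ := (meets_chart_iff _ _ _).1 h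
  have h1 := h (bot 1) (by rw [vP_bot]; simp)
  rw [mulVec, dotProduct, Finset.sum_eq_single (lft 0)] at h1
  · refine (mul_eq_zero.1 h1).resolve_right fun h0 => hne ?_
    funext j
    by_cases hj : j = lft 0
    · rw [hj]; exact h0
    · exact hx j (by rw [Fin.ext_iff] at hj; simp at hj; omega)
  · intro j _ hj
    rw [hx j (by rw [Ne, Fin.ext_iff] at hj; simp at hj; omega), mul_zero]
  · simp

theorem of_meets_eleven (z : Pos 12 → ℂ) (h : Meets (chart vP z) 11) : h11 (unitri z) = 0 := by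
  obtain ⟨x, hne, hx, h⟩ := (meets_chart_iff _ _ _).1 h
  have h1 := tri_solve z 8 _ (fun l hl => by
    rw [← mulVec_mid]; exact h _ (by rw [vP_mid]; omega))
  have h2 : ∀ l : Fin 8, 8 ≤ (l : ℕ) → x (mid l) = 0 := fun l hl => absurd l.2 (by omega)
  have h3 : x (bot 1) = 0 := hx _ (by simp)
  have e0 := mulVec_bot z x 8 h1 h2 0
  have e1 := mulVec_bot z x 8 h1 h2 1
  rw [h _ (by rw [vP_bot]; omega), h3] at e0 e1
  rw [unitri_self] at e0
  have e2 := h (lft 1) (by rw [vP_lft]; simp)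
  rw [mulVec, dotProduct, sum_twelve, Fin.sum_univ_two, unitri_self,
    Finset.sum_eq_zero (fun l _ => by rw [unitri_of_lt z (by simp; omega), zero_mul]),
    Finset.sum_eq_zero (fun l _ => by rw [unitri_of_lt z (by simp; omega), zero_mul])] at e2
  by_contra hq
  have x0 : x (lft 0) = 0 := by
    apply (mul_eq_zero.1 (_ : h11 (unitri z) * x (lft 0) = 0)).resolve_left hq
    unfold h11
    linear_combination unitri z (bot 1) (bot 0) * e0 - e1 -
      (Sr (unitri z) 8 1 1 - unitri z (bot 1) (bot 0) * Sr (unitri z) 8 0 1) * e2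
  have x1 : x (lft 1) = 0 := by linear_combination e2 - unitri z (lft 1) (lft 0) * x0
  apply hne
  funext j
  refine idx_cases (P := fun j => x j = 0) ?_ ?_ ?_ j
  · intro c; fin_cases c
    · exact x0
    · exact x1
  · intro l
    have := h1 l l.2
    simpa [mulVec, dotProduct, x0, x1] using this
  · intro c; fin_cases c
    · rw [x0, x1] at e0
      simpa using e0.symm
    · exact h3

theorem eq_wP (w : Equiv.Perm (Fin 12))
    (hodd : ∀ k ∈ [1, 3, 5, 7, 9, 11], ¬ ∃ j : Fin 12, (j : ℕ) < k ∧ (w j : ℕ) + k < 12)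
    (heven : ∀ k ∈ [2, 4, 6, 8, 10], ∃ j : Fin 12, (j : ℕ) < k ∧ (w j : ℕ) + k < 12) :
    w = wP := by
  have hinj : ∀ a b : Fin 12, a ≠ b → (w a : ℕ) ≠ w b := fun a b hab h =>
    hab (w.injective (Fin.ext h))
  have hlow : ∀ k ∈ [1, 3, 5, 7, 9, 11], ∀ j : Fin 12, (j : ℕ) < k → 12 ≤ (w j : ℕ) + k := by
    intro k hk j hj
    by_contra h
    exact hodd k hk ⟨j, hj, by omega⟩
  have a0 : (w 0 : ℕ) = 11 := by
    have := hlow 1 (by simp) 0 (by simp)
    omega
  have a1 : (w 1 : ℕ) = 9 := by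
    have h1 := hlow 3 (by simp) 1 (by decide)
    obtain ⟨j, hj, hw⟩ := heven 2 (by simp)
    have hj' : j = 0 ∨ j = 1 := by omega
    rcases hj' with rfl | rfl <;> omega
  have a2 : (w 2 : ℕ) = 10 := by
    have h1 := hlow 3 (by simp) 2 (by decide)
    have := hinj 2 0 (by decide)
    have := hinj 2 1 (by decide)
    omega
  have a3 : (w 3 : ℕ) = 7 := by
    have h1 := hlow 5 (by simp) 3 (by decide)
    obtain ⟨j, hj, hw⟩ := heven 4 (by simp)
    have hj' : j = 0 ∨ j = 1 ∨ j = 2 ∨ j = 3 := by omega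
    rcases hj' with rfl | rfl | rfl | rfl <;> omega
  have a4 : (w 4 : ℕ) = 8 := by
    have h1 := hlow 5 (by simp) 4 (by decide)
    have := hinj 4 0 (by decide)
    have := hinj 4 1 (by decide)
    have := hinj 4 2 (by decide)
    have := hinj 4 3 (by decide)
    omega
  have a5 : (w 5 : ℕ) = 5 := by
    have h1 := hlow 7 (by simp) 5 (by decide)
    obtain ⟨j, hj, hw⟩ := heven 6 (by simp)
    have hj' : j = 0 ∨ j = 1 ∨ j = 2 ∨ j = 3 ∨ j = 4 ∨ j = 5 := by omega
    rcases hj' with rfl | rfl | rfl | rfl | rfl | rfl <;> omega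
  have a6 : (w 6 : ℕ) = 6 := by
    have h1 := hlow 7 (by simp) 6 (by decide)
    have := hinj 6 0 (by decide)
    have := hinj 6 1 (by decide)
    have := hinj 6 2 (by decide)
    have := hinj 6 3 (by decide)
    have := hinj 6 4 (by decide)
    have := hinj 6 5 (by decide)
    omega
  have a7 : (w 7 : ℕ) = 3 := by
    have h1 := hlow 9 (by simp) 7 (by decide)
    obtain ⟨j, hj, hw⟩ := heven 8 (by simp)
    have hj' : j = 0 ∨ j = 1 ∨ j = 2 ∨ j = 3 ∨ j = 4 ∨ j = 5 ∨ j = 6 ∨ j = 7 := by omega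
    rcases hj' with rfl | rfl | rfl | rfl | rfl | rfl | rfl | rfl <;> omega
  have a8 : (w 8 : ℕ) = 4 := by
    have h1 := hlow 9 (by simp) 8 (by decide)
    have := hinj 8 0 (by decide)
    have := hinj 8 1 (by decide)
    have := hinj 8 2 (by decide)
    have := hinj 8 3 (by decide)
    have := hinj 8 4 (by decide)
    have := hinj 8 5 (by decide)
    have := hinj 8 6 (by decide)
    have := hinj 8 7 (by decide)
    omega
  have a9 : (w 9 : ℕ) = 1 := by
    have h1 := hlow 11 (by simp) 9 (by decide)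
    obtain ⟨j, hj, hw⟩ := heven 10 (by simp)
    have hj' : j = 0 ∨ j = 1 ∨ j = 2 ∨ j = 3 ∨ j = 4 ∨ j = 5 ∨ j = 6 ∨ j = 7 ∨ j = 8 ∨ j = 9 := by omega
    rcases hj' with rfl | rfl | rfl | rfl | rfl | rfl | rfl | rfl | rfl | rfl <;> omega
  have a10 : (w 10 : ℕ) = 2 := by
    have h1 := hlow 11 (by simp) 10 (by decide)
    have := hinj 10 0 (by decide)
    have := hinj 10 1 (by decide)
    have := hinj 10 2 (by decide)
    have := hinj 10 3 (by decide)
    have := hinj 10 4 (by decide)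
    have := hinj 10 5 (by decide)
    have := hinj 10 6 (by decide)
    have := hinj 10 7 (by decide)
    have := hinj 10 8 (by decide)
    have := hinj 10 9 (by decide)
    omega
  have a11 : (w 11 : ℕ) = 0 := by
    have := hinj 11 0 (by decide)
    have := hinj 11 1 (by decide)
    have := hinj 11 2 (by decide)
    have := hinj 11 3 (by decide)
    have := hinj 11 4 (by decide)
    have := hinj 11 5 (by decide)
    have := hinj 11 6 (by decide)
    have := hinj 11 7 (by decide)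
    have := hinj 11 8 (by decide)
    have := hinj 11 9 (by decide)
    have := hinj 11 10 (by decide)
    omega
  ext j
  fin_cases j
  · exact a0
  · exact a1
  · exact a2
  · exact a3
  · exact a4
  · exact a5
  · exact a6
  · exact a7
  · exact a8
  · exact a9
  · exact a10
  · exact a11

theorem qf_of_mem_cell (z : Pos 12 → ℂ) (h : chart vP z ∈ schubertCell wP) (k : Fin 5) :
    qf (Sr (unitri z) (2 * k)) = 0 := by
  apply qf_of_meets z _ (by omega)
  rw [meets_iff_of_mem_cell h]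
  revert k
  decide

theorem mem_cell_of (z : Pos 12 → ℂ) (h0 : ∀ k : Fin 5, qf (Sr (unitri z) (2 * k)) = 0)
    (h1 : ∀ k : Fin 4, qf (Sr (unitri z) (2 * k + 1)) ≠ 0) (h2 : Cm (unitri z) 1 0 ≠ 0)
    (h3 : h11 (unitri z) ≠ 0) : chart vP z ∈ schubertCell wP := by
  obtain ⟨w, hw⟩ := exists_mem_cell (permMat vP * unitri z) (by
    rw [det_mul, det_unitri, mul_one]; exact isUnit_det_permMat vP)
  change chart vP z ∈ _ at hw
  suffices w = wP by rwa [← this]
  apply eq_wP
  · intro k hk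
    rw [← meets_iff_of_mem_cell hw]
    intro hm
    simp only [List.mem_cons, List.not_mem_nil, or_false] at hk
    rcases hk with rfl | rfl | rfl | rfl | rfl | rfl
    · exact h2 (of_meets_one z hm)
    · exact h1 0 (qf_of_meets z 1 (by omega) hm)
    · exact h1 1 (qf_of_meets z 3 (by omega) hm)
    · exact h1 2 (qf_of_meets z 5 (by omega) hm)
    · exact h1 3 (qf_of_meets z 7 (by omega) hm)
    · exact h3 (of_meets_eleven z hm)
  · intro k hk
    rw [← meets_iff_of_mem_cell hw]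
    simp only [List.mem_cons, List.not_mem_nil, or_false] at hk
    rcases hk with rfl | rfl | rfl | rfl | rfl
    · exact meets_of_qf z 0 (by omega) (h0 0)
    · exact meets_of_qf z 2 (by omega) (h0 1)
    · exact meets_of_qf z 4 (by omega) (h0 2)
    · exact meets_of_qf z 6 (by omega) (h0 3)
    · exact meets_of_qf z 8 (by omega) (h0 4)

theorem bruhatLE_vP_wP : BruhatLE vP wP := by
  have h0 : BruhatLE vP vP := Relation.ReflTransGen.refl
  have h1 : BruhatLE vP (vP * Equiv.swap 0 11) :=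
    Relation.ReflTransGen.tail h0 ⟨⟨0, 11, by decide, rfl⟩, by decide +kernel⟩
  have h2 : BruhatLE vP ((vP * Equiv.swap 0 11) * Equiv.swap 1 2) :=
    Relation.ReflTransGen.tail h1 ⟨⟨1, 2, by decide, rfl⟩, by decide +kernel⟩
  have h3 : BruhatLE vP (((vP * Equiv.swap 0 11) * Equiv.swap 1 2) * Equiv.swap 2 9) :=
    Relation.ReflTransGen.tail h2 ⟨⟨2, 9, by decide, rfl⟩, by decide +kernel⟩
  have h4 : BruhatLE vP ((((vP * Equiv.swap 0 11) * Equiv.swap 1 2) * Equiv.swap 2 9) * Equiv.swap 2 3) :=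
    Relation.ReflTransGen.tail h3 ⟨⟨2, 3, by decide, rfl⟩, by decide +kernel⟩
  have h5 : BruhatLE vP (((((vP * Equiv.swap 0 11) * Equiv.swap 1 2) * Equiv.swap 2 9) * Equiv.swap 2 3) * Equiv.swap 2 10) :=
    Relation.ReflTransGen.tail h4 ⟨⟨2, 10, by decide, rfl⟩, by decide +kernel⟩
  have h6 : BruhatLE vP ((((((vP * Equiv.swap 0 11) * Equiv.swap 1 2) * Equiv.swap 2 9) * Equiv.swap 2 3) * Equiv.swap 2 10) * Equiv.swap 3 4) :=
    Relation.ReflTransGen.tail h5 ⟨⟨3, 4, by decide, rfl⟩, by decide +kernel⟩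
  have h7 : BruhatLE vP (((((((vP * Equiv.swap 0 11) * Equiv.swap 1 2) * Equiv.swap 2 9) * Equiv.swap 2 3) * Equiv.swap 2 10) * Equiv.swap 3 4) * Equiv.swap 4 5) :=
    Relation.ReflTransGen.tail h6 ⟨⟨4, 5, by decide, rfl⟩, by decide +kernel⟩
  have h8 : BruhatLE vP ((((((((vP * Equiv.swap 0 11) * Equiv.swap 1 2) * Equiv.swap 2 9) * Equiv.swap 2 3) * Equiv.swap 2 10) * Equiv.swap 3 4) * Equiv.swap 4 5) * Equiv.swap 4 10) :=
    Relation.ReflTransGen.tail h7 ⟨⟨4, 10, by decide, rfl⟩, by decide +kernel⟩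
  have h9 : BruhatLE vP (((((((((vP * Equiv.swap 0 11) * Equiv.swap 1 2) * Equiv.swap 2 9) * Equiv.swap 2 3) * Equiv.swap 2 10) * Equiv.swap 3 4) * Equiv.swap 4 5) * Equiv.swap 4 10) * Equiv.swap 5 6) :=
    Relation.ReflTransGen.tail h8 ⟨⟨5, 6, by decide, rfl⟩, by decide +kernel⟩
  have h10 : BruhatLE vP ((((((((((vP * Equiv.swap 0 11) * Equiv.swap 1 2) * Equiv.swap 2 9) * Equiv.swap 2 3) * Equiv.swap 2 10) * Equiv.swap 3 4) * Equiv.swap 4 5) * Equiv.swap 4 10) * Equiv.swap 5 6) * Equiv.swap 6 7) :=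
    Relation.ReflTransGen.tail h9 ⟨⟨6, 7, by decide, rfl⟩, by decide +kernel⟩
  have h11 : BruhatLE vP (((((((((((vP * Equiv.swap 0 11) * Equiv.swap 1 2) * Equiv.swap 2 9) * Equiv.swap 2 3) * Equiv.swap 2 10) * Equiv.swap 3 4) * Equiv.swap 4 5) * Equiv.swap 4 10) * Equiv.swap 5 6) * Equiv.swap 6 7) * Equiv.swap 6 10) :=
    Relation.ReflTransGen.tail h10 ⟨⟨6, 10, by decide, rfl⟩, by decide +kernel⟩
  have h12 : BruhatLE vP ((((((((((((vP * Equiv.swap 0 11) * Equiv.swap 1 2) * Equiv.swap 2 9) * Equiv.swap 2 3) * Equiv.swap 2 10) * Equiv.swap 3 4) * Equiv.swap 4 5) * Equiv.swap 4 10) * Equiv.swap 5 6) * Equiv.swap 6 7) * Equiv.swap 6 10) * Equiv.swap 7 8) :=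
    Relation.ReflTransGen.tail h11 ⟨⟨7, 8, by decide, rfl⟩, by decide +kernel⟩
  have h13 : BruhatLE vP (((((((((((((vP * Equiv.swap 0 11) * Equiv.swap 1 2) * Equiv.swap 2 9) * Equiv.swap 2 3) * Equiv.swap 2 10) * Equiv.swap 3 4) * Equiv.swap 4 5) * Equiv.swap 4 10) * Equiv.swap 5 6) * Equiv.swap 6 7) * Equiv.swap 6 10) * Equiv.swap 7 8) * Equiv.swap 8 10) :=
    Relation.ReflTransGen.tail h12 ⟨⟨8, 10, by decide, rfl⟩, by decide +kernel⟩
  have e : (((((((((((((vP * Equiv.swap 0 11) * Equiv.swap 1 2) * Equiv.swap 2 9) * Equiv.swap 2 3) * Equiv.swap 2 10) * Equiv.swap 3 4) * Equiv.swap 4 5) * Equiv.swap 4 10) * Equiv.swap 5 6) * Equiv.swap 6 7) * Equiv.swap 6 10) * Equiv.swap 7 8) * Equiv.swap 8 10) = wP := by decide +kernel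
  rwa [e] at h13

end Pool.Agent.Lib.MP_9fb153_ag
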