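import Pool.Agent.Lib.MP_9fb153_ag.Defs

/-!
Depth is at most the coheight of an associated prime; a ring with an embedded prime is not
Cohen-Macaulay.
-/

namespace Pool.Agent.Lib.MP_9fb153_ag

open IsLocalRing RingTheory.Sequence

theorem length_le_coheight {A : Type} [CommRing A] [IsLocalRing A] [IsNoetherianRing A]
    (rs : List A) : ∀ (M : Type) [AddCommGroup M] [Module A M] [Module.Finite A M],
      (∀ r ∈ rs, r ∈ maximalIdeal A) → IsWeaklyRegular M rs →
      ∀ (P : PrimeSpectrum A) (z : M), z ≠ 0 → (∀ a ∈ P.asIdeal, a • z = 0) →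
      (rs.length : ℕ∞) ≤ Order.coheight P := by
  induction rs with
  | nil => intro M _ _ _ _ _ P z _ _; simp
  | cons x rs ih =>
    intro M _ _ _ hmem hreg P z hz hP
    rw [isWeaklyRegular_cons_iff] at hreg
    obtain ⟨hx, hreg⟩ := hreg
    have hxm : x ∈ maximalIdeal A := hmem x (by simp)
    -- the submodule killed by P
    let N : Submodule A M :=
      { carrier := {m | ∀ a ∈ P.asIdeal, a • m = 0}
        add_mem' := fun {a b} ha hb c hc => by rw [smul_add, ha c hc, hb c hc, add_zero]
        zero_mem' := fun c _ => smul_zero c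
        smul_mem' := fun c m hm a ha => by rw [smul_comm, hm a ha, smul_zero] }
    have hN : ∃ y ∈ N, (Submodule.Quotient.mk y : QuotSMulTop x M) ≠ 0 := by
      by_contra hcon
      push Not at hcon
      have hle : N ≤ (maximalIdeal A) • N := by
        intro y hy
        have h1 := hcon y hy
        rw [Submodule.Quotient.mk_eq_zero] at h1
        obtain ⟨y', -, rfl⟩ := (Submodule.mem_smul_pointwise_iff_exists _ _ _).1 h1
        refine Submodule.smul_mem_smul hxm ?_
        intro a ha
        apply hx
        have := hy a ha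
        simp only [smul_zero]
        rw [smul_comm, this]
      have hbot : N = ⊥ := by
        apply Submodule.eq_bot_of_le_smul_of_le_jacobson_bot (maximalIdeal A) N
          (IsNoetherian.noetherian N) hle
        rw [IsLocalRing.jacobson_eq_maximalIdeal ⊥ bot_ne_top]
      have : z ∈ N := hP
      rw [hbot] at this
      exact hz this
    obtain ⟨y, hyN, hy⟩ := hN
    obtain ⟨P1, hP1, hle⟩ := exists_le_isAssociatedPrime_of_isNoetherianRing A _ hy
    obtain ⟨hprime, z1, hz1⟩ := isAssociatedPrime_iff.1 hP1
    have hz1ne : z1 ≠ 0 := by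
      rintro rfl
      apply hprime.ne_top
      rw [hz1]; simp
    have h1 := ih (QuotSMulTop x M) (fun r hr => hmem r (by simp [hr])) hreg ⟨P1, hprime⟩ z1 hz1ne
      (by
        intro a ha
        simp only [hz1, Submodule.mem_colon_singleton, Submodule.mem_bot] at ha
        exact ha)
    have hlt : P < ⟨P1, hprime⟩ := by
      rw [← PrimeSpectrum.asIdeal_lt_asIdeal]
      refine lt_of_le_of_ne ?_ ?_
      · intro a ha
        apply hle
        rw [Submodule.mem_colon_singleton, Submodule.mem_bot, ← Submodule.Quotient.mk_smul,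
          hyN a ha, Submodule.Quotient.mk_zero]
      · intro heq
        have hx1 : x ∈ P1 := by
          apply hle
          rw [Submodule.mem_colon_singleton, Submodule.mem_bot, ← Submodule.Quotient.mk_smul,
            Submodule.Quotient.mk_eq_zero]
          exact Submodule.smul_mem_pointwise_smul _ _ _ Submodule.mem_top
        have hx2 : x ∈ P.asIdeal := by rw [heq]; exact hx1
        apply hz
        apply hx
        simp only [smul_zero]
        exact hP x hx2
    have h2 := Order.coheight_add_one_le hlt
    simp only [List.length_cons, Nat.cast_add, Nat.cast_one]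
    exact le_trans (by gcongr) h2

/-- If `s` has annihilator inside a maximal ideal `M` and every prime between `Ann s` and `M`
strictly contains the prime `Q`, the ring is not Cohen-Macaulay. -/
theorem not_isCohenMacaulay {G : Type} [CommRing G] [IsNoetherianRing G] (M : Ideal G)
    [M.IsMaximal] (s : G) (hs : ∀ h, h * s = 0 → h ∈ M) (Q : Ideal G) [hQ : Q.IsPrime]
    (hP : ∀ P : Ideal G, P.IsPrime → P ≤ M → (∀ h, h * s = 0 → h ∈ P) → Q < P) :
    ¬ IsCohenMacaulay G := by
  intro hCM
  let A := Localization.AtPrime M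
  obtain ⟨rs, hmem, hreg, hlen⟩ : ∃ rs : List A, (∀ r ∈ rs, r ∈ maximalIdeal A) ∧
    RingTheory.Sequence.IsRegular A rs ∧ (rs.length : WithBot ℕ∞) = ringKrullDim A := hCM M
  have hs' : algebraMap G A s ≠ 0 := by
    intro h0
    obtain ⟨⟨c, hc⟩, hc'⟩ := (IsLocalization.map_eq_zero_iff M.primeCompl A s).1 h0
    exact hc (hs c hc')
  obtain ⟨P1, hP1, hle⟩ := exists_le_isAssociatedPrime_of_isNoetherianRing A _ hs'
  obtain ⟨hprime, z1, hz1⟩ := isAssociatedPrime_iff.1 hP1
  have hz1ne : z1 ≠ 0 := by
    rintro rfl
    apply hprime.ne_top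
    rw [hz1]; simp
  have h1 := length_le_coheight rs A hmem hreg.toIsWeaklyRegular ⟨P1, hprime⟩ z1 hz1ne
    (by
      intro a ha
      simp only [hz1, Submodule.mem_colon_singleton, Submodule.mem_bot] at ha
      exact ha)
  have hPM : P1.comap (algebraMap G A) ≤ M := by
    intro g hg
    have : algebraMap G A g ∈ maximalIdeal A := le_maximalIdeal hprime.ne_top hg
    exact (IsLocalization.AtPrime.to_map_mem_maximal_iff A M g).1 this
  have hQP := hP (P1.comap (algebraMap G A)) (Ideal.comap_isPrime _ _) hPM (by
    intro h hh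
    apply hle
    rw [Submodule.mem_colon_singleton, Submodule.mem_bot, smul_eq_mul, ← map_mul, hh, map_zero])
  have hdisj : Disjoint (M.primeCompl : Set G) (Q : Set G) := by
    rw [Set.disjoint_left]
    intro g hg hgQ
    exact hg (hPM (hQP.le hgQ))
  have hQ' : (Q.map (algebraMap G A)).IsPrime :=
    IsLocalization.isPrime_of_isPrime_disjoint M.primeCompl A Q hQ hdisj
  have hlt : (⟨Q.map (algebraMap G A), hQ'⟩ : PrimeSpectrum A) < ⟨P1, hprime⟩ := by
    rw [← PrimeSpectrum.asIdeal_lt_asIdeal]
    refine lt_of_le_of_ne (Ideal.map_le_iff_le_comap.2 hQP.le) ?_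
    intro heq
    apply hQP.ne
    have := IsLocalization.under_map_of_isPrime_disjoint M.primeCompl A hQ hdisj
    rw [← this]
    exact congrArg _ heq
  have h2 := Order.coheight_add_one_le hlt
  have h3 : ((Order.coheight (⟨Q.map (algebraMap G A), hQ'⟩ : PrimeSpectrum A) : ℕ∞) :
      WithBot ℕ∞) ≤ ringKrullDim A := Order.coheight_le_krullDim _
  rw [← hlen] at h3
  have h4 : Order.coheight (⟨Q.map (algebraMap G A), hQ'⟩ : PrimeSpectrum A) ≤
      (rs.length : ℕ∞) := by exact_mod_cast h3
  have h5 : (rs.length : ℕ∞) + 1 ≤ rs.length := le_trans (by gcongr) (h2.trans h4)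
  have h6 : rs.length + 1 ≤ rs.length := by exact_mod_cast h5
  omega

end Pool.Agent.Lib.MP_9fb153_ag
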