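import Mathlib

/-!
Definitions for tangent cones of type A Schubert varieties.
-/

namespace Pool.Agent.Lib.MP_9fb153_ag

open IsLocalRing

/-- The number of inversions of a permutation. -/
def inversions {n : ℕ} (w : Equiv.Perm (Fin n)) : ℕ :=
  (Finset.univ.filter fun p : Fin n × Fin n => p.1 < p.2 ∧ w p.2 < w p.1).card

/-- The Bruhat order: generated by `x < x t` for transpositions `t` that increase the length. -/
def BruhatLE {n : ℕ} (v w : Equiv.Perm (Fin n)) : Prop :=
  Relation.ReflTransGen
    (fun x y => (∃ a b : Fin n, a ≠ b ∧ y = x * Equiv.swap a b) ∧ inversions x < inversions y) v w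

/-- The flag of a matrix: `flagOf g k` is the span of the first `k` columns of `g`. -/
def flagOf {n : ℕ} (g : Matrix (Fin n) (Fin n) ℂ) (k : ℕ) : Submodule ℂ (Fin n → ℂ) :=
  Submodule.span ℂ {c | ∃ j : Fin n, (j : ℕ) < k ∧ c = fun i => g i j}

/-- The permutation matrix of `w`: its column `j` is the basis vector `e_(w j)`. -/
def permMat {n : ℕ} (w : Equiv.Perm (Fin n)) : Matrix (Fin n) (Fin n) ℂ :=
  Matrix.of fun i j => if i = w j then 1 else 0

/-- Membership in the Borel subgroup `B` of invertible upper triangular matrices. -/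
def IsBorel {n : ℕ} (b : Matrix (Fin n) (Fin n) ℂ) : Prop :=
  IsUnit b.det ∧ ∀ i j : Fin n, j < i → b i j = 0

/-- The orbit `B e_w` of the coordinate flag `e_w = flagOf (permMat w)`. -/
def schubertCell {n : ℕ} (w : Equiv.Perm (Fin n)) : Set (ℕ → Submodule ℂ (Fin n → ℂ)) :=
  {F | ∃ b, IsBorel b ∧ F = fun k => (flagOf (permMat w) k).map (Matrix.toLin' b)}

/-- Positions strictly below the diagonal: the coordinates of the standard chart. -/
abbrev Pos (n : ℕ) : Type := {p : Fin n × Fin n // p.2 < p.1}

/-- The lower unitriangular matrix with entries `z` below the diagonal. -/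
def unitri {n : ℕ} {R : Type} [CommRing R] (z : Pos n → R) : Matrix (Fin n) (Fin n) R :=
  Matrix.of fun i j => if h : j < i then z ⟨(i, j), h⟩ else if i = j then 1 else 0

/-- The standard affine chart `z ↦ v Z(z) B` of the flag variety around `e_v` (`z = 0`). -/
def chart {n : ℕ} (v : Equiv.Perm (Fin n)) (z : Pos n → ℂ) : ℕ → Submodule ℂ (Fin n → ℂ) :=
  flagOf (permMat v * unitri z)

/-- The ideal of the (reduced) Schubert variety `X_w` in the chart around `e_v`: the polynomials
vanishing on the part of the orbit `B e_w` inside the chart. -/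
noncomputable def schubertIdeal {n : ℕ} (v w : Equiv.Perm (Fin n)) :
    Ideal (MvPolynomial (Pos n) ℂ) :=
  MvPolynomial.vanishingIdeal ℂ {z : Pos n → ℂ | chart v z ∈ schubertCell w}

/-- The coordinate ring of `X_w` in the chart around `e_v`. -/
abbrev ChartRing {n : ℕ} (v w : Equiv.Perm (Fin n)) : Type :=
  MvPolynomial (Pos n) ℂ ⧸ schubertIdeal v w

/-- The ideal `I R[IT]` of the Rees algebra `R[IT]`. -/
noncomputable def reesExt {R : Type} [CommRing R] (I : Ideal R) : Ideal (reesAlgebra I) :=
  I.map (algebraMap R (reesAlgebra I))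

/-- The associated graded ring `⨁ m^i / m^(i+1) = R[mT] / m R[mT]` of a local ring `(R, m)`. -/
abbrev AssocGraded (R : Type) [CommRing R] [IsLocalRing R] : Type :=
  reesAlgebra (maximalIdeal R) ⧸ reesExt (maximalIdeal R)

/-- Cohen-Macaulay: at every maximal ideal, the local ring has a regular sequence in its maximal
ideal whose length is the Krull dimension (depth equals dimension). -/
def IsCohenMacaulay (G : Type) [CommRing G] : Prop :=
  ∀ (M : Ideal G) [M.IsMaximal], ∃ rs : List (Localization.AtPrime M),
    (∀ r ∈ rs, r ∈ maximalIdeal (Localization.AtPrime M)) ∧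
    RingTheory.Sequence.IsRegular (Localization.AtPrime M) rs ∧
    (rs.length : WithBot ℕ∞) = ringKrullDim (Localization.AtPrime M)

/-- The associated graded ring of the local ring `R` is Cohen-Macaulay. -/
def GrIsCM (R : Type) [CommRing R] [IsLocalRing R] : Prop := IsCohenMacaulay (AssocGraded R)

/-- The associated graded ring of the local ring of `A` at the prime `p` is Cohen-Macaulay. -/
def TangentConeIsCM {A : Type} [CommRing A] (p : Ideal A) [p.IsPrime] : Prop :=
  GrIsCM (Localization.AtPrime p)

end Pool.Agent.Lib.MP_9fb153_ag
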