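import Pool.Agent.Lib.MP_9fb153_ag.Defs

/-!
Flags, Schubert cells and the Bruhat decomposition.
-/

namespace Pool.Agent.Lib.MP_9fb153_ag

open Matrix

variable {n : ℕ}

theorem mem_flagOf (g : Matrix (Fin n) (Fin n) ℂ) (k : ℕ) (y : Fin n → ℂ) :
    y ∈ flagOf g k ↔ ∃ x : Fin n → ℂ, (∀ j : Fin n, k ≤ j → x j = 0) ∧ y = g *ᵥ x := by
  constructor
  · intro hy
    refine Submodule.span_induction
      (p := fun y _ => ∃ x : Fin n → ℂ, (∀ j : Fin n, k ≤ j → x j = 0) ∧ y = g *ᵥ x) ?_ ?_ ?_ ?_ hy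
    · rintro _ ⟨j, hj, rfl⟩
      refine ⟨Pi.single j 1, fun j' hj' => ?_, ?_⟩
      · rw [Pi.single_eq_of_ne]
        rintro rfl; omega
      · funext i; simp [mulVec, dotProduct, Pi.single_apply]
    · exact ⟨0, fun _ _ => rfl, by simp⟩
    · rintro _ _ _ _ ⟨x, hx, rfl⟩ ⟨x', hx', rfl⟩
      exact ⟨x + x', fun j hj => by simp [hx j hj, hx' j hj], by rw [mulVec_add]⟩
    · rintro a _ _ ⟨x, hx, rfl⟩
      exact ⟨a • x, fun j hj => by simp [hx j hj], by rw [mulVec_smul]⟩
  · rintro ⟨x, hx, rfl⟩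
    have : g *ᵥ x = ∑ j, x j • (fun i => g i j) := by
      funext i; simp [mulVec, dotProduct, mul_comm]
    rw [this]
    refine Submodule.sum_mem _ fun j _ => ?_
    by_cases hj : (j : ℕ) < k
    · exact Submodule.smul_mem _ _ (Submodule.subset_span ⟨j, hj, rfl⟩)
    · rw [hx j (by omega), zero_smul]; exact Submodule.zero_mem _

theorem permMat_mulVec (w : Equiv.Perm (Fin n)) (x : Fin n → ℂ) (j : Fin n) :
    (permMat w *ᵥ x) (w j) = x j := by
  simp [permMat, mulVec, dotProduct]

theorem flagOf_mul (b g : Matrix (Fin n) (Fin n) ℂ) (k : ℕ) :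
    (flagOf g k).map (Matrix.toLin' b) = flagOf (b * g) k := by
  ext y
  simp only [Submodule.mem_map, mem_flagOf, toLin'_apply]
  constructor
  · rintro ⟨_, ⟨x, hx, rfl⟩, rfl⟩
    exact ⟨x, hx, by rw [mulVec_mulVec]⟩
  · rintro ⟨x, hx, rfl⟩
    exact ⟨_, ⟨x, hx, rfl⟩, by rw [mulVec_mulVec]⟩

/-- `F k` meets the standard subspace of dimension `n - k` nontrivially. -/
def Meets (F : ℕ → Submodule ℂ (Fin n → ℂ)) (k : ℕ) : Prop :=
  ∃ y ∈ F k, y ≠ 0 ∧ ∀ i : Fin n, n ≤ i + k → y i = 0

theorem IsBorel.diag_ne_zero {b : Matrix (Fin n) (Fin n) ℂ} (hb : IsBorel b) (i : Fin n) :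
    b i i ≠ 0 := by
  have h1 : b.det = ∏ i, b i i := Matrix.det_of_isUpperTriangular (fun i j h => hb.2 i j h)
  have h2 := hb.1.ne_zero
  rw [h1, Finset.prod_ne_zero_iff] at h2
  exact h2 i (Finset.mem_univ _)

theorem meets_iff_of_mem_cell {w : Equiv.Perm (Fin n)} {F : ℕ → Submodule ℂ (Fin n → ℂ)}
    (hF : F ∈ schubertCell w) (k : ℕ) :
    Meets F k ↔ ∃ j : Fin n, (j : ℕ) < k ∧ (w j : ℕ) + k < n := by
  obtain ⟨b, hb, rfl⟩ := hF
  constructor
  · rintro ⟨_, ⟨u, hu, rfl⟩, hne, hy⟩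
    by_contra hcon
    push Not at hcon
    obtain ⟨x, hx, rfl⟩ := (mem_flagOf _ _ _).1 hu
    set u := permMat w *ᵥ x with hudef
    have hu0 : u ≠ 0 := by
      rintro h; apply hne; rw [h]; simp
    have hne' : (Finset.univ.filter fun i => u i ≠ 0).Nonempty := by
      by_contra h
      apply hu0
      funext i
      by_contra hi
      exact h ⟨i, by simpa using hi⟩
    set m := (Finset.univ.filter fun i => u i ≠ 0).max' hne' with hm
    have hm1 : u m ≠ 0 := by simpa using Finset.max'_mem _ hne'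
    have hm2 : ∀ i, m < i → u i = 0 := by
      intro i hi
      by_contra h
      have : i ≤ m := Finset.le_max' _ i (by simpa using h)
      omega
    have hm3 : n ≤ m + k := by
      obtain ⟨j, hj⟩ := w.surjective m
      rw [← hj] at hm1 ⊢
      rw [hudef, permMat_mulVec] at hm1
      apply hcon
      by_contra h
      exact hm1 (hx j (by omega))
    have := hy m hm3
    rw [toLin'_apply, mulVec, dotProduct, Finset.sum_eq_single m] at this
    · exact mul_ne_zero (hb.diag_ne_zero m) hm1 this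
    · intro i _ hi
      rcases lt_or_gt_of_ne hi with h | h
      · rw [hb.2 m i h, zero_mul]
      · rw [hm2 i h, mul_zero]
    · simp
  · rintro ⟨j, hj, hw⟩
    refine ⟨fun i => b i (w j), ⟨Pi.single (w j) 1, Submodule.subset_span ⟨j, hj, ?_⟩, ?_⟩, ?_, ?_⟩
    · funext i; simp [permMat, Pi.single_apply]
    · funext i; simp [mulVec, dotProduct, Pi.single_apply]
    · intro h
      exact hb.diag_ne_zero (w j) (congrFun h (w j))
    · intro i hi
      exact hb.2 i (w j) (by rw [Fin.lt_def]; omega)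

theorem flagOf_mono (g : Matrix (Fin n) (Fin n) ℂ) {k l : ℕ} (h : k ≤ l) :
    flagOf g k ≤ flagOf g l :=
  Submodule.span_mono fun _ ⟨j, hj, e⟩ => ⟨j, by omega, e⟩

/-- Bruhat decomposition. -/
theorem exists_mem_cell (g : Matrix (Fin n) (Fin n) ℂ) (hg : IsUnit g.det) :
    ∃ w : Equiv.Perm (Fin n), flagOf g ∈ schubertCell w := by
  classical
  have hinj : Function.Injective g.mulVec :=
    Matrix.mulVec_injective_iff_isUnit.2 ((Matrix.isUnit_iff_isUnit_det g).2 hg)
  -- candidates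
  let P : Fin n → ℕ → Prop := fun j m => ∃ y : Fin n → ℂ,
    y - (fun i => g i j) ∈ flagOf g j ∧ ∀ i : Fin n, m ≤ i → y i = 0
  have hP : ∀ j, ∃ m, P j m := fun j =>
    ⟨n, fun i => g i j, by simp, fun i hi => absurd i.2 (by omega)⟩
  have hspec := fun j => Nat.find_spec (hP j)
  choose y hy1 hy2 using hspec
  have hyne : ∀ (j : Fin n) (u : Fin n → ℂ), u - (fun i => g i j) ∈ flagOf g j → u ≠ 0 := by
    rintro j u hu rfl
    obtain ⟨x, hx, e⟩ := (mem_flagOf _ _ _).1 hu
    have : g *ᵥ (x + Pi.single j 1) = g *ᵥ 0 := by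
      rw [mulVec_add, ← e]
      funext i; simp [mulVec, dotProduct]
    have := congrFun (hinj this) j
    simp [hx j le_rfl] at this
  have hpos : ∀ j, 0 < Nat.find (hP j) := by
    intro j
    by_contra h
    apply hyne j (y j) (hy1 j)
    funext i
    exact hy2 j i (by omega)
  have hle : ∀ j, Nat.find (hP j) ≤ n := fun j => Nat.find_min' (hP j)
    ⟨fun i => g i j, by simp, fun i hi => absurd i.2 (by omega)⟩
  let w0 : Fin n → Fin n := fun j => ⟨Nat.find (hP j) - 1, by have := hpos j; have := hle j; omega⟩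
  have hw0 : ∀ j, (w0 j : ℕ) = Nat.find (hP j) - 1 := fun j => rfl
  have hmin : ∀ (j : Fin n) (u : Fin n → ℂ), u - (fun i => g i j) ∈ flagOf g j →
      (∀ i : Fin n, w0 j < i → u i = 0) → u (w0 j) ≠ 0 := by
    intro j u hu hu2 hu3
    refine Nat.find_min (hP j) (m := Nat.find (hP j) - 1) (by have := hpos j; omega) ⟨u, hu, ?_⟩
    intro i hi
    rcases eq_or_lt_of_le (show w0 j ≤ i from hi) with h | h
    · rw [← h]; exact hu3
    · exact hu2 i h
  have hy3 : ∀ j (i : Fin n), w0 j < i → y j i = 0 := by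
    intro j i hi
    apply hy2 j i
    rw [Fin.lt_def, hw0] at hi
    omega
  have hy4 : ∀ j, y j (w0 j) ≠ 0 := fun j => hmin j (y j) (hy1 j) (hy3 j)
  have hy5 : ∀ j : Fin n, y j ∈ flagOf g (j + 1) := by
    intro j
    have : y j = (y j - fun i => g i j) + fun i => g i j := by simp
    rw [this]
    exact Submodule.add_mem _ (flagOf_mono g (Nat.le_succ _) (hy1 j))
      (Submodule.subset_span ⟨j, Nat.lt_succ_self _, rfl⟩)
  have hlt : ∀ l j : Fin n, l < j → w0 l ≠ w0 j := by
    intro l j hlj he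
    refine hmin j (y j - (y j (w0 j) / y l (w0 l)) • y l) ?_ ?_ ?_
    · rw [sub_right_comm]
      exact Submodule.sub_mem _ (hy1 j) (Submodule.smul_mem _ _ (flagOf_mono g hlj (hy5 l)))
    · intro i hi
      simp [hy3 j i hi, hy3 l i (he ▸ hi)]
    · have := hy4 l
      rw [he] at this
      simp only [Pi.sub_apply, Pi.smul_apply, smul_eq_mul, he]
      field_simp
      ring
  have hw0inj : Function.Injective w0 := by
    intro a b hab
    by_contra h
    rcases lt_or_gt_of_ne h with h | h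
    · exact hlt a b h hab
    · exact hlt b a h hab.symm
  let w : Equiv.Perm (Fin n) := Equiv.ofBijective w0 (Finite.injective_iff_bijective.1 hw0inj)
  have hw : ∀ j, w j = w0 j := fun j => rfl
  let b : Matrix (Fin n) (Fin n) ℂ := Matrix.of fun i m => y (w.symm m) i
  have hbt : ∀ i j : Fin n, j < i → b i j = 0 := by
    intro i j hij
    apply hy3
    rwa [← hw, Equiv.apply_symm_apply]
  have hbd : IsUnit b.det := by
    rw [Matrix.det_of_isUpperTriangular (fun i j h => hbt i j h), isUnit_iff_ne_zero,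
      Finset.prod_ne_zero_iff]
    intro i _
    have := hy4 (w.symm i)
    rwa [← hw, Equiv.apply_symm_apply] at this
  refine ⟨w, b, ⟨hbd, hbt⟩, ?_⟩
  funext k
  rw [flagOf_mul]
  have hcol : ∀ j, (fun i => (b * permMat w) i j) = y j := by
    intro j
    funext i
    simp [b, permMat, Matrix.mul_apply]
  apply le_antisymm
  · induction k with
    | zero =>
      refine Submodule.span_le.2 ?_
      rintro _ ⟨j, hj, rfl⟩
      omega
    | succ k ih =>
      refine Submodule.span_le.2 ?_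
      rintro _ ⟨j, hj, rfl⟩
      have h1 : flagOf g j ≤ flagOf (b * permMat w) (k + 1) :=
        (flagOf_mono g (by omega)).trans (ih.trans (flagOf_mono _ (Nat.le_succ k)))
      have : (fun i => g i j) = y j - (y j - fun i => g i j) := by simp
      rw [this]
      exact Submodule.sub_mem _ (Submodule.subset_span ⟨j, hj, (hcol j).symm⟩) (h1 (hy1 j))
  · refine Submodule.span_le.2 ?_
    rintro _ ⟨j, hj, rfl⟩
    rw [hcol]
    exact flagOf_mono g hj (hy5 j)

theorem det_unitri {R : Type} [CommRing R] (z : Pos n → R) : (unitri z).det = 1 := by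
  rw [Matrix.det_of_isLowerTriangular]
  · simp [unitri]
  · intro i j h
    have h' : i < j := h
    simp [unitri, h'.not_gt, h'.ne]

theorem isUnit_det_permMat (w : Equiv.Perm (Fin n)) : IsUnit (permMat w).det := by
  have : permMat w * (permMat w)ᵀ = 1 := by
    ext i j
    obtain ⟨a, rfl⟩ := w.surjective i
    obtain ⟨b, rfl⟩ := w.surjective j
    simp [permMat, Matrix.mul_apply, Matrix.one_apply]
  exact Matrix.isUnit_det_of_right_inverse this

theorem meets_chart_iff (v : Equiv.Perm (Fin n)) (z : Pos n → ℂ) (k : ℕ) :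
    Meets (chart v z) k ↔ ∃ x : Fin n → ℂ, x ≠ 0 ∧ (∀ j : Fin n, k ≤ j → x j = 0) ∧
      ∀ i : Fin n, n ≤ v i + k → (unitri z *ᵥ x) i = 0 := by
  have hinj : Function.Injective (permMat v * unitri z).mulVec :=
    Matrix.mulVec_injective_iff_isUnit.2 ((Matrix.isUnit_iff_isUnit_det _).2 (by
      rw [det_mul, det_unitri, mul_one]; exact isUnit_det_permMat v))
  constructor
  · rintro ⟨y, hy, hne, h⟩
    obtain ⟨x, hx, rfl⟩ := (mem_flagOf _ _ _).1 hy
    refine ⟨x, ?_, hx, fun i hi => ?_⟩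
    · rintro rfl; simp at hne
    · rw [← permMat_mulVec v (unitri z *ᵥ x) i, mulVec_mulVec]
      exact h _ hi
  · rintro ⟨x, hne, hx, h⟩
    refine ⟨_, (mem_flagOf _ _ _).2 ⟨x, hx, rfl⟩, ?_, fun i hi => ?_⟩
    · intro h0
      exact hne (hinj (by rw [h0]; simp))
    · obtain ⟨a, rfl⟩ := v.surjective i
      rw [← mulVec_mulVec, permMat_mulVec]
      exact h a hi

end Pool.Agent.Lib.MP_9fb153_ag
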