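import Pool.Agent.Lib.MP_9fb153_ag.Defs

/-!
The associated graded ring of a local ring: vanishing criteria, homomorphisms defined by arcs.
-/

namespace Pool.Agent.Lib.MP_9fb153_ag

open IsLocalRing Polynomial

variable {R : Type} [CommRing R] [IsLocalRing R]

abbrev Rees (R : Type) [CommRing R] [IsLocalRing R] : Type := reesAlgebra (maximalIdeal R)

noncomputable def mkG (R : Type) [CommRing R] [IsLocalRing R] : Rees R →+* AssocGraded R :=
  Ideal.Quotient.mk _

theorem mkG_surjective : Function.Surjective (mkG R) := Ideal.Quotient.mk_surjective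

theorem mkG_algebraMap {r : R} (hr : r ∈ maximalIdeal R) :
    mkG R (algebraMap R (Rees R) r) = 0 :=
  Ideal.Quotient.eq_zero_iff_mem.2 (Ideal.mem_map_of_mem _ hr)

theorem mkG_monomial_eq_zero' (i : ℕ) (r : R) (hr : r ∈ maximalIdeal R ^ (i + 1)) :
    ∃ h : monomial i r ∈ reesAlgebra (maximalIdeal R), mkG R ⟨monomial i r, h⟩ = 0 := by
  rw [pow_succ'] at hr
  refine Submodule.mul_induction_on hr ?_ ?_
  · intro a ha b hb
    have hb' : monomial i b ∈ reesAlgebra (maximalIdeal R) := reesAlgebra.monomial_mem.2 hb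
    have h : monomial i (a * b) ∈ reesAlgebra (maximalIdeal R) :=
      reesAlgebra.monomial_mem.2 (Ideal.mul_mem_left _ _ hb)
    refine ⟨h, ?_⟩
    have : (⟨monomial i (a * b), h⟩ : Rees R) = algebraMap R (Rees R) a * ⟨monomial i b, hb'⟩ := by
      apply Subtype.ext
      simp [C_mul_monomial]
    rw [this, map_mul, mkG_algebraMap ha, zero_mul]
  · rintro x y ⟨hx, hx'⟩ ⟨hy, hy'⟩
    have h : monomial i (x + y) ∈ reesAlgebra (maximalIdeal R) := by
      rw [map_add]; exact add_mem hx hy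
    refine ⟨h, ?_⟩
    have : (⟨monomial i (x + y), h⟩ : Rees R) = ⟨monomial i x, hx⟩ + ⟨monomial i y, hy⟩ := by
      apply Subtype.ext
      simp
    rw [this, map_add, hx', hy', add_zero]

theorem mkG_eq_zero_of_coeff (x : Rees R)
    (h : ∀ i, x.1.coeff i ∈ maximalIdeal R ^ (i + 1)) : mkG R x = 0 := by
  have : x = ∑ i ∈ x.1.support, (⟨monomial i (x.1.coeff i),
      reesAlgebra.monomial_mem.2 (x.2 i)⟩ : Rees R) := by
    apply Subtype.ext
    rw [AddSubmonoidClass.coe_finsetSum]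
    exact x.1.as_sum_support
  rw [this, map_sum]
  refine Finset.sum_eq_zero fun i _ => ?_
  obtain ⟨_, h'⟩ := mkG_monomial_eq_zero' i _ (h i)
  exact h'

theorem mkG_eq_zero_of_shift (x y : Rees R) (h : X * x.1 = y.1) : mkG R x = 0 := by
  apply mkG_eq_zero_of_coeff
  intro i
  have := y.2 (i + 1)
  rwa [← h, coeff_X_mul] at this

theorem coeff_mem_of_mkG_eq_zero (x : Rees R) (h : mkG R x = 0) (i : ℕ) :
    x.1.coeff i ∈ maximalIdeal R ^ (i + 1) := by
  have hx := Ideal.Quotient.eq_zero_iff_mem.1 h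
  clear h
  rw [reesExt, Ideal.map] at hx
  revert i
  refine Submodule.span_induction (p := fun x _ => ∀ i, x.1.coeff i ∈ maximalIdeal R ^ (i + 1))
    ?_ ?_ ?_ ?_ hx
  · rintro _ ⟨r, hr, rfl⟩ i
    change (C r).coeff i ∈ _
    rw [coeff_C]
    split_ifs with hi
    · subst hi; simpa using hr
    · exact Ideal.zero_mem _
  · intro i; simp
  · intro x y _ _ hx hy i
    simpa using Ideal.add_mem _ (hx i) (hy i)
  · intro a x _ hx i
    change (a.1 * x.1).coeff i ∈ _
    rw [coeff_mul]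
    refine Ideal.sum_mem _ ?_
    rintro ⟨j, k⟩ e
    rw [← Finset.HasAntidiagonal.mem_antidiagonal.mp e, add_assoc, pow_add]
    exact Ideal.mul_mem_mul (a.2 j) (hx k)

section Arc

variable {D : Type} [CommRing D]

theorem arc_dvd (γ : R →+* PowerSeries D)
    (hγ : ∀ r ∈ maximalIdeal R, PowerSeries.X ∣ γ r) (i : ℕ) :
    ∀ r ∈ maximalIdeal R ^ i, PowerSeries.X ^ i ∣ γ r := by
  induction i with
  | zero => intro r _; simp
  | succ i ih =>
    intro r hr
    rw [pow_succ] at hr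
    refine Submodule.mul_induction_on hr ?_ ?_
    · intro a ha b hb
      rw [map_mul, pow_succ]
      exact mul_dvd_mul (ih a ha) (hγ b hb)
    · intro x y hx hy
      rw [map_add]; exact dvd_add hx hy

theorem coeff_mul_of_dvd {f g : PowerSeries D} {i j : ℕ} (hf : PowerSeries.X ^ i ∣ f)
    (hg : PowerSeries.X ^ j ∣ g) :
    PowerSeries.coeff (i + j) (f * g) = PowerSeries.coeff i f * PowerSeries.coeff j g := by
  obtain ⟨f, rfl⟩ := hf
  obtain ⟨g, rfl⟩ := hg
  have : PowerSeries.X ^ i * f * (PowerSeries.X ^ j * g) = PowerSeries.X ^ (i + j) * (f * g) := by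
    ring
  rw [this]
  have h1 := PowerSeries.coeff_X_pow_mul (f * g) (i + j) 0
  have h2 := PowerSeries.coeff_X_pow_mul f i 0
  have h3 := PowerSeries.coeff_X_pow_mul g j 0
  simp only [zero_add] at h1 h2 h3
  rw [h1, h2, h3]
  simp

noncomputable def arcFun (γ : R →+* PowerSeries D) (f : R[X]) : D[X] :=
  f.sum fun i r => monomial i (PowerSeries.coeff i (γ r))

omit [IsLocalRing R] in
theorem coeff_arcFun (γ : R →+* PowerSeries D) (f : R[X]) (n : ℕ) :
    (arcFun γ f).coeff n = PowerSeries.coeff n (γ (f.coeff n)) := by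
  unfold arcFun
  rw [coeff_sum, sum_def]
  simp only [coeff_monomial]
  rw [Finset.sum_ite_eq']
  split_ifs with h
  · rfl
  · rw [notMem_support_iff.1 h]; simp

noncomputable def arcRees (γ : R →+* PowerSeries D)
    (hγ : ∀ r ∈ maximalIdeal R, PowerSeries.X ∣ γ r) : Rees R →+* D[X] where
  toFun x := arcFun γ x.1
  map_one' := by
    ext n
    rw [coeff_arcFun]
    change PowerSeries.coeff n (γ ((1 : R[X]).coeff n)) = _
    rw [coeff_one, coeff_one]
    split_ifs with h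
    · subst h; simp
    · simp
  map_mul' x y := by
    ext n
    rw [coeff_arcFun, coeff_mul]
    change PowerSeries.coeff n (γ ((x.1 * y.1).coeff n)) = _
    rw [coeff_mul, map_sum, map_sum]
    refine Finset.sum_congr rfl ?_
    rintro ⟨i, j⟩ e
    rw [← Finset.HasAntidiagonal.mem_antidiagonal.mp e, coeff_arcFun, coeff_arcFun, map_mul]
    exact coeff_mul_of_dvd (arc_dvd γ hγ i _ (x.2 i)) (arc_dvd γ hγ j _ (y.2 j))
  map_zero' := by
    ext n
    rw [coeff_arcFun]; simp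
  map_add' x y := by
    ext n
    rw [coeff_add, coeff_arcFun, coeff_arcFun, coeff_arcFun]
    simp

noncomputable def arcHom (γ : R →+* PowerSeries D)
    (hγ : ∀ r ∈ maximalIdeal R, PowerSeries.X ∣ γ r) : AssocGraded R →+* D[X] :=
  Ideal.Quotient.lift _ (arcRees γ hγ) (by
    intro x hx
    have hx' := coeff_mem_of_mkG_eq_zero x (Ideal.Quotient.eq_zero_iff_mem.2 hx)
    ext n
    change (arcFun γ x.1).coeff n = _
    rw [coeff_arcFun, coeff_zero]
    exact (PowerSeries.X_pow_dvd_iff.1 (arc_dvd γ hγ _ _ (hx' n))) n (Nat.lt_succ_self n))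

theorem coeff_arcHom (γ : R →+* PowerSeries D)
    (hγ : ∀ r ∈ maximalIdeal R, PowerSeries.X ∣ γ r) (x : Rees R) (n : ℕ) :
    (arcHom γ hγ (mkG R x)).coeff n = PowerSeries.coeff n (γ (x.1.coeff n)) :=
  coeff_arcFun γ x.1 n

theorem arcHom_monomial (γ : R →+* PowerSeries D)
    (hγ : ∀ r ∈ maximalIdeal R, PowerSeries.X ∣ γ r) (i : ℕ) (r : R)
    (h : monomial i r ∈ reesAlgebra (maximalIdeal R)) :
    arcHom γ hγ (mkG R ⟨monomial i r, h⟩) = monomial i (PowerSeries.coeff i (γ r)) := by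
  ext n
  rw [coeff_arcHom]
  simp only [coeff_monomial]
  split_ifs with h
  · subst h; rfl
  · simp

theorem arcHom_algebraMap (γ : R →+* PowerSeries D)
    (hγ : ∀ r ∈ maximalIdeal R, PowerSeries.X ∣ γ r) (r : R) :
    arcHom γ hγ (mkG R (algebraMap R (Rees R) r)) = C (PowerSeries.constantCoeff (γ r)) := by
  ext n
  rw [coeff_arcHom]
  change PowerSeries.coeff n (γ ((C r).coeff n)) = _
  simp only [coeff_C]
  split_ifs with h
  · subst h; simp
  · simp

end Arc

section Gen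

variable {σ k : Type} (z : σ → R) (c : k → R)

/-- two homomorphisms out of the graded ring agreeing on generators agree -/
theorem assocGraded_hom_ext {K : Type} [CommRing K] (hz : ∀ j, z j ∈ maximalIdeal R)
    (hspan : maximalIdeal R ≤ Ideal.span (Set.range z))
    (hc : ∀ r : R, ∃ a, r - c a ∈ maximalIdeal R) (f g : AssocGraded R →+* K)
    (h0 : ∀ a, f (mkG R (algebraMap R (Rees R) (c a))) = g (mkG R (algebraMap R (Rees R) (c a))))
    (h1 : ∀ j, f (mkG R ⟨monomial 1 (z j), reesAlgebra.monomial_mem.2 (by simpa using hz j)⟩) =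
      g (mkG R ⟨monomial 1 (z j), reesAlgebra.monomial_mem.2 (by simpa using hz j)⟩)) :
    f = g := by
  have H0 : ∀ r, f (mkG R (algebraMap R (Rees R) r)) = g (mkG R (algebraMap R (Rees R) r)) := by
    intro r
    obtain ⟨a, ha⟩ := hc r
    have : mkG R (algebraMap R (Rees R) r) = mkG R (algebraMap R (Rees R) (c a)) := by
      rw [← sub_eq_zero, ← map_sub, ← map_sub]; exact mkG_algebraMap ha
    rw [this, h0]
  have H1 : ∀ r ∈ Ideal.span (Set.range z), ∃ h : monomial 1 r ∈ reesAlgebra (maximalIdeal R),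
      f (mkG R ⟨monomial 1 r, h⟩) = g (mkG R ⟨monomial 1 r, h⟩) := by
    intro r hr
    refine Submodule.span_induction (p := fun r _ =>
      ∃ h : monomial 1 r ∈ reesAlgebra (maximalIdeal R),
        f (mkG R ⟨monomial 1 r, h⟩) = g (mkG R ⟨monomial 1 r, h⟩)) ?_ ?_ ?_ ?_ hr
    · rintro _ ⟨j, rfl⟩
      exact ⟨_, h1 j⟩
    · refine ⟨by simp, ?_⟩
      have : ∀ h, (⟨monomial 1 (0 : R), h⟩ : Rees R) = 0 := fun h => Subtype.ext (by simp)
      rw [this]; simp
    · rintro x y _ _ ⟨hx, hx'⟩ ⟨hy, hy'⟩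
      have h : monomial 1 (x + y) ∈ reesAlgebra (maximalIdeal R) := by
        rw [map_add]; exact add_mem hx hy
      refine ⟨h, ?_⟩
      have : (⟨monomial 1 (x + y), h⟩ : Rees R) = ⟨monomial 1 x, hx⟩ + ⟨monomial 1 y, hy⟩ := by
        apply Subtype.ext
        simp
      rw [this, map_add, map_add, map_add, hx', hy']
    · rintro a x _ ⟨hx, hx'⟩
      have e : monomial 1 (a • x) = (algebraMap R (Rees R) a * ⟨monomial 1 x, hx⟩ : Rees R).1 := by
        simp [C_mul_monomial]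
      have h : monomial 1 (a • x) ∈ reesAlgebra (maximalIdeal R) := by
        rw [e]; exact Subtype.property _
      refine ⟨h, ?_⟩
      have : (⟨monomial 1 (a • x), h⟩ : Rees R) = algebraMap R (Rees R) a * ⟨monomial 1 x, hx⟩ :=
        Subtype.ext e
      rw [this, map_mul, map_mul, map_mul, hx', H0]
  refine RingHom.ext fun x => ?_
  obtain ⟨⟨p, hp⟩, rfl⟩ := mkG_surjective x
  have hp' := hp
  rw [← adjoin_monomial_eq_reesAlgebra] at hp'
  suffices ∃ h : p ∈ reesAlgebra (maximalIdeal R), f (mkG R ⟨p, h⟩) = g (mkG R ⟨p, h⟩) from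
    this.2
  clear hp
  refine Algebra.adjoin_induction (p := fun p _ =>
    ∃ h : p ∈ reesAlgebra (maximalIdeal R), f (mkG R ⟨p, h⟩) = g (mkG R ⟨p, h⟩)) ?_ ?_ ?_ ?_ hp'
  · rintro _ ⟨r, hr, rfl⟩
    exact H1 r (hspan hr)
  · intro r
    exact ⟨Subalgebra.algebraMap_mem _ r, H0 r⟩
  · rintro x y _ _ ⟨hx, hx'⟩ ⟨hy, hy'⟩
    refine ⟨add_mem hx hy, ?_⟩
    have : (⟨x + y, add_mem hx hy⟩ : Rees R) = ⟨x, hx⟩ + ⟨y, hy⟩ := rfl
    rw [this, map_add, map_add, map_add, hx', hy']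
  · rintro x y _ _ ⟨hx, hx'⟩ ⟨hy, hy'⟩
    refine ⟨mul_mem hx hy, ?_⟩
    have : (⟨x * y, mul_mem hx hy⟩ : Rees R) = ⟨x, hx⟩ * ⟨y, hy⟩ := rfl
    rw [this, map_mul, map_mul, map_mul, hx', hy']

variable {D : Type} [CommRing D]

theorem two_arcs_dvd (hz : ∀ j, z j ∈ maximalIdeal R)
    (hspan : maximalIdeal R ≤ Ideal.span (Set.range z))
    (hc : ∀ r : R, ∃ a, r - c a ∈ maximalIdeal R) (γ₁ γ₂ : R →+* PowerSeries D)
    (h₁ : ∀ r ∈ maximalIdeal R, PowerSeries.X ∣ γ₁ r)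
    (h₂ : ∀ r ∈ maximalIdeal R, PowerSeries.X ∣ γ₂ r)
    (h0 : ∀ a, γ₁ (c a) = γ₂ (c a)) (h1 : ∀ j, PowerSeries.X ^ 2 ∣ γ₁ (z j) - γ₂ (z j)) (i : ℕ) :
    ∀ r ∈ maximalIdeal R ^ i, PowerSeries.X ^ (i + 1) ∣ γ₁ r - γ₂ r := by
  have H0 : ∀ r, PowerSeries.X ∣ γ₁ r - γ₂ r := by
    intro r
    obtain ⟨a, ha⟩ := hc r
    have : γ₁ r - γ₂ r = γ₁ (r - c a) - γ₂ (r - c a) := by
      rw [map_sub, map_sub, h0]; ring
    rw [this]
    exact dvd_sub (h₁ _ ha) (h₂ _ ha)
  have hle : Ideal.span (Set.range z) ≤ maximalIdeal R := by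
    rw [Ideal.span_le]; rintro _ ⟨j, rfl⟩; exact hz j
  have H1 : ∀ r ∈ Ideal.span (Set.range z), PowerSeries.X ^ 2 ∣ γ₁ r - γ₂ r := by
    intro r hr
    refine Submodule.span_induction (p := fun r _ => PowerSeries.X ^ 2 ∣ γ₁ r - γ₂ r)
      ?_ ?_ ?_ ?_ hr
    · rintro _ ⟨j, rfl⟩
      exact h1 j
    · simp
    · intro x y _ _ hx hy
      have : γ₁ (x + y) - γ₂ (x + y) = (γ₁ x - γ₂ x) + (γ₁ y - γ₂ y) := by
        rw [map_add, map_add]; ring
      rw [this]; exact dvd_add hx hy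
    · intro a x hxm hx
      have : γ₁ (a • x) - γ₂ (a • x) = γ₁ a * (γ₁ x - γ₂ x) + (γ₁ a - γ₂ a) * γ₂ x := by
        rw [smul_eq_mul, map_mul, map_mul]; ring
      rw [this]
      refine dvd_add (Dvd.dvd.mul_left hx _) ?_
      rw [pow_two]
      exact mul_dvd_mul (H0 a) (h₂ x (hle hxm))
  induction i with
  | zero => intro r _; simpa using H0 r
  | succ i ih =>
    intro r hr
    rw [pow_succ] at hr
    refine Submodule.mul_induction_on hr ?_ ?_
    · intro a ha b hb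
      have : γ₁ (a * b) - γ₂ (a * b) = γ₁ a * (γ₁ b - γ₂ b) + (γ₁ a - γ₂ a) * γ₂ b := by
        rw [map_mul, map_mul]; ring
      rw [this]
      refine dvd_add ?_ ?_
      · rw [show i + 1 + 1 = i + 2 from rfl, pow_add]
        exact mul_dvd_mul (arc_dvd γ₁ h₁ i a ha) (H1 b (hspan hb))
      · rw [pow_succ]
        exact mul_dvd_mul (ih a ha) (h₂ b hb)
    · intro x y hx hy
      have : γ₁ (x + y) - γ₂ (x + y) = (γ₁ x - γ₂ x) + (γ₁ y - γ₂ y) := by
        rw [map_add, map_add]; ring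
      rw [this]; exact dvd_add hx hy

/-- Two arcs with the same first-order data that separate `s` at the next order: the annihilator
of the class of `s` is killed by the arc homomorphism. -/
theorem arcHom_eq_zero_of_mul [IsDomain D] (γ₁ γ₂ : R →+* PowerSeries D)
    (h₁ : ∀ r ∈ maximalIdeal R, PowerSeries.X ∣ γ₁ r)
    (h₂ : ∀ r ∈ maximalIdeal R, PowerSeries.X ∣ γ₂ r)
    (h12 : ∀ i, ∀ r ∈ maximalIdeal R ^ i, PowerSeries.X ^ (i + 1) ∣ γ₁ r - γ₂ r)
    (d : ℕ) (s : R) (st : Rees R) (hst : st.1 = monomial d s) (u₁ u₂ : D) (hu : u₁ ≠ u₂)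
    (e₁ : γ₁ s = PowerSeries.X ^ (d + 1) * PowerSeries.C u₁)
    (e₂ : γ₂ s = PowerSeries.X ^ (d + 1) * PowerSeries.C u₂)
    (h : AssocGraded R) (hh : h * mkG R st = 0) : arcHom γ₁ h₁ h = 0 := by
  obtain ⟨x, rfl⟩ := mkG_surjective h
  rw [← map_mul] at hh
  ext i
  rw [coeff_arcHom, coeff_zero]
  have hm := coeff_mem_of_mkG_eq_zero _ hh (i + d)
  change (x.1 * st.1).coeff (i + d) ∈ _ at hm
  rw [hst, coeff_mul_monomial] at hm
  have k1 := (PowerSeries.X_pow_dvd_iff.1 (h12 _ _ hm)) (i + (d + 1)) (by omega)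
  have k2 := (PowerSeries.X_pow_dvd_iff.1 (h12 _ _ (x.2 i))) i (by omega)
  rw [map_sub, map_mul γ₁, map_mul γ₂,
    coeff_mul_of_dvd (arc_dvd γ₁ h₁ i _ (x.2 i)) (e₁ ▸ Dvd.intro _ rfl),
    coeff_mul_of_dvd (arc_dvd γ₂ h₂ i _ (x.2 i)) (e₂ ▸ Dvd.intro _ rfl), e₁, e₂] at k1
  have h2 := PowerSeries.coeff_X_pow_mul (PowerSeries.C u₁) (d + 1) 0
  have h3 := PowerSeries.coeff_X_pow_mul (PowerSeries.C u₂) (d + 1) 0
  simp only [zero_add] at h2 h3
  rw [h2, h3] at k1
  rw [map_sub, sub_eq_zero] at k2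
  rw [← k2] at k1
  simp only [PowerSeries.coeff_zero_C] at k1
  rw [← mul_sub] at k1
  exact (mul_eq_zero.1 k1).resolve_right (sub_ne_zero.2 hu)

end Gen

end Pool.Agent.Lib.MP_9fb153_ag
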