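import Pool.Agent.Lib.MP_9fb153_ag.Univ
import Pool.Agent.Lib.MP_9fb153_ag.Graded

/-!
The local ring at `e_v` and the arcs on it.
-/

namespace Pool.Agent.Lib.MP_9fb153_ag

open Matrix IsLocalRing

set_option linter.unusedSectionVars false

theorem arcP_zero {D : Type} [CommRing D] (e : Pos 12 → D) (p q : Fin 5 → Fin 2 → D)
    (y : Pos 12) : arcP e p q 0 y = 0 := by
  obtain ⟨u, hu⟩ := arcG_expand e (Apar (Bm (unitri e)) p q) (Cpar (Bm (unitri e)) p q) 0 y
  rw [arcP, hu]; simp

theorem constantCoeff_eq_zero (F : Pz) (hF : F ∈ schubertIdeal vP wP) :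
    MvPolynomial.constantCoeff F = 0 := by
  have := evP_gamU 0 0 F
  rw [gamU_eq_zero F hF, map_zero] at this
  simp only [evP_arcU, arcP_zero] at this
  simpa using this.symm

noncomputable def ev0 : ChartRing vP wP →+* ℂ :=
  Ideal.Quotient.lift _ MvPolynomial.constantCoeff constantCoeff_eq_zero

noncomputable def p0 : Ideal (ChartRing vP wP) := RingHom.ker ev0

instance p0_isPrime : p0.IsPrime := RingHom.ker_isPrime _

theorem mem_p0 (F : Pz) :
    Ideal.Quotient.mk (schubertIdeal vP wP) F ∈ p0 ↔ MvPolynomial.constantCoeff F = 0 := Iff.rfl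

variable (RR : Type) [CommRing RR] [IsLocalRing RR] [Algebra (ChartRing vP wP) RR]
  [IsLocalization.AtPrime RR p0]

noncomputable def al : Pz →+* RR :=
  (algebraMap (ChartRing vP wP) RR).comp (Ideal.Quotient.mk _)

theorem al_mem_iff (F : Pz) : al RR F ∈ maximalIdeal RR ↔ MvPolynomial.constantCoeff F = 0 :=
  (IsLocalization.AtPrime.to_map_mem_maximal_iff RR p0 _).trans (mem_p0 F)

noncomputable def zR : Pos 12 → RR := fun j => al RR (MvPolynomial.X j)
noncomputable def cR : ℂ → RR := fun a => al RR (MvPolynomial.C a)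

theorem zR_mem (j : Pos 12) : zR RR j ∈ maximalIdeal RR := (al_mem_iff RR _).2 (by simp)

theorem sub_const_mem (F : Pz) :
    al RR F - cR RR (MvPolynomial.constantCoeff F) ∈ Ideal.span (Set.range (zR RR)) := by
  induction F using MvPolynomial.induction_on with
  | C a => simp [cR]
  | add p q hp hq =>
    have := Ideal.add_mem _ hp hq
    simp only [cR, map_add] at this ⊢
    rwa [add_sub_add_comm]
  | mul_X p i _ =>
    simp only [cR, map_mul, MvPolynomial.constantCoeff_X, mul_zero, map_zero, sub_zero]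
    exact Ideal.mul_mem_left _ _ (Ideal.subset_span ⟨i, rfl⟩)

theorem maximalIdeal_le_span : maximalIdeal RR ≤ Ideal.span (Set.range (zR RR)) := by
  rw [← IsLocalization.AtPrime.map_eq_maximalIdeal p0 RR, Ideal.map_le_iff_le_comap]
  intro x hx
  obtain ⟨F, rfl⟩ := Ideal.Quotient.mk_surjective x
  have := sub_const_mem RR F
  rw [(mem_p0 F).1 hx] at this
  simpa [cR, al] using this

theorem exists_const (r : RR) : ∃ a, r - cR RR a ∈ maximalIdeal RR := by
  obtain ⟨⟨x, ⟨s, hs⟩⟩, h⟩ := IsLocalization.surj p0.primeCompl r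
  obtain ⟨F, rfl⟩ := Ideal.Quotient.mk_surjective x
  obtain ⟨G, rfl⟩ := Ideal.Quotient.mk_surjective s
  have hG : MvPolynomial.constantCoeff G ≠ 0 := fun h0 => hs ((mem_p0 G).2 h0)
  change r * al RR G = al RR F at h
  refine ⟨MvPolynomial.constantCoeff F / MvPolynomial.constantCoeff G, ?_⟩
  have h1 : (r - cR RR (MvPolynomial.constantCoeff F / MvPolynomial.constantCoeff G)) * al RR G ∈
      maximalIdeal RR := by
    rw [sub_mul, h, cR, ← map_mul, ← map_sub, al_mem_iff]
    simp [hG]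
  exact ((Ideal.IsMaximal.isPrime inferInstance).mem_or_mem h1).resolve_right
    fun h2 => hG ((al_mem_iff RR G).1 h2)

theorem unitri_zR : (fun y => al RR (MvPolynomial.X y)) = zR RR := rfl

theorem qf_Sr_zR (k : Fin 5) : qf (Sr (unitri (zR RR)) (2 * k)) = 0 := by
  rw [← unitri_zR, ← map_Sr, ← map_qf, al, RingHom.comp_apply,
    Ideal.Quotient.eq_zero_iff_mem.2 (qf_Sr_mem k), map_zero]

variable {D : Type} [CommRing D] (φ : DU →+* D)

noncomputable def gamPS : Pz →+* PowerSeries D :=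
  Polynomial.coeToPowerSeries.ringHom.comp ((Polynomial.mapRingHom φ).comp gamU)

theorem gamPS_C (a : ℂ) : gamPS φ (MvPolynomial.C a) = PowerSeries.C (φ (MvPolynomial.C a)) := by
  simp [gamPS, gamU]

noncomputable def eF : Pos 12 → D := fun y => φ (eU y)
noncomputable def pF : Fin 5 → Fin 2 → D := fun k i => φ (pU k i)
noncomputable def qF : Fin 5 → Fin 2 → D := fun k i => φ (qU k i)
noncomputable def AF : Matrix (Fin 8) (Fin 2) D := Apar (Bm (unitri (eF φ))) (pF φ) (qF φ)
noncomputable def CF : M2 D := Cpar (Bm (unitri (eF φ))) (pF φ) (qF φ)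

theorem gamPS_X (j : Pos 12) : gamPS φ (MvPolynomial.X j) =
    arcG (fun y => PowerSeries.C (eF φ y)) ((AF φ).map PowerSeries.C) (mp PowerSeries.C (CF φ))
      PowerSeries.X j := by
  have : gamPS φ (MvPolynomial.X j) =
      (Polynomial.coeToPowerSeries.ringHom.comp (Polynomial.mapRingHom φ)) (arcU j) := by
    simp [gamPS, gamU]
  rw [this, arcU, map_arcP, AF, CF, map_Apar, map_Cpar, map_Bm, arcP]
  simp [eF, pF, qF]

theorem gamPS_X_expand (j : Pos 12) : ∃ u, gamPS φ (MvPolynomial.X j) =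
    PowerSeries.X * PowerSeries.C (lead (eF φ) (AF φ) j) + PowerSeries.X ^ 2 * u := by
  rw [gamPS_X, map_lead]
  exact arcG_expand _ _ _ _ _

theorem constantCoeff_gamPS (F : Pz) : PowerSeries.constantCoeff (gamPS φ F) =
    φ (MvPolynomial.C (MvPolynomial.constantCoeff F)) := by
  have : (PowerSeries.constantCoeff (R := D)).comp (gamPS φ) =
      φ.comp (MvPolynomial.C.comp MvPolynomial.constantCoeff) := by
    apply MvPolynomial.ringHom_ext
    · intro r; simp [gamPS_C]
    · intro j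
      obtain ⟨u, hu⟩ := gamPS_X_expand φ j
      simp [hu]
  exact RingHom.congr_fun this F

noncomputable def gamQ : ChartRing vP wP →+* PowerSeries D :=
  Ideal.Quotient.lift _ (gamPS φ) (fun F hF => by simp [gamPS, gamU_eq_zero F hF])

noncomputable def gamR : RR →+* PowerSeries D :=
  IsLocalization.lift (M := p0.primeCompl) (g := gamQ φ) (by
    rintro ⟨s, hs⟩
    obtain ⟨G, rfl⟩ := Ideal.Quotient.mk_surjective s
    have hG : MvPolynomial.constantCoeff G ≠ 0 := fun h0 => hs ((mem_p0 G).2 h0)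
    change IsUnit (gamPS φ G)
    rw [PowerSeries.isUnit_iff_constantCoeff, constantCoeff_gamPS]
    exact ((IsUnit.mk0 _ hG).map MvPolynomial.C).map φ)

theorem gamR_al (F : Pz) : gamR RR φ (al RR F) = gamPS φ F := by
  rw [gamR, al, RingHom.comp_apply, IsLocalization.lift_eq]
  rfl

theorem gamR_dvd : ∀ r ∈ maximalIdeal RR, PowerSeries.X ∣ gamR RR φ r := by
  intro r hr
  refine Submodule.span_induction (p := fun r _ => PowerSeries.X ∣ gamR RR φ r) ?_ ?_ ?_ ?_
    (maximalIdeal_le_span RR hr)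
  · rintro _ ⟨j, rfl⟩
    obtain ⟨u, hu⟩ := gamPS_X_expand φ j
    rw [zR, gamR_al, hu]
    exact ⟨PowerSeries.C (lead (eF φ) (AF φ) j) + PowerSeries.X * u, by ring⟩
  · simp
  · intro x y _ _ hx hy
    rw [map_add]; exact dvd_add hx hy
  · intro a x _ hx
    rw [smul_eq_mul, map_mul]; exact Dvd.dvd.mul_left hx _

abbrev GG : Type := AssocGraded RR

noncomputable def zT : Pos 12 → Rees RR := fun j =>
  ⟨Polynomial.monomial 1 (zR RR j), reesAlgebra.monomial_mem.2 (by simpa using zR_mem RR j)⟩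

noncomputable def cG : ℂ →+* GG RR :=
  (mkG RR).comp ((algebraMap RR (Rees RR)).comp ((al RR).comp MvPolynomial.C))

noncomputable def psi : GG RR →+* D :=
  (Polynomial.evalRingHom 1).comp (arcHom (gamR RR φ) (gamR_dvd RR φ))

theorem psi_zT (j : Pos 12) : psi RR φ (mkG RR (zT RR j)) = lead (eF φ) (AF φ) j := by
  obtain ⟨u, hu⟩ := gamPS_X_expand φ j
  rw [psi, RingHom.comp_apply, zT, arcHom_monomial, zR, gamR_al, hu]
  simp [PowerSeries.coeff_X_pow_mul']

theorem psi_cG (a : ℂ) : psi RR φ (cG RR a) = φ (MvPolynomial.C a) := by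
  simp only [psi, cG, RingHom.comp_apply]
  rw [arcHom_algebraMap, gamR_al, gamPS_C]
  simp

theorem GG_ext {K : Type} [CommRing K] (f g : GG RR →+* K) (h0 : ∀ a, f (cG RR a) = g (cG RR a))
    (h1 : ∀ j, f (mkG RR (zT RR j)) = g (mkG RR (zT RR j))) : f = g :=
  assocGraded_hom_ext (zR RR) (cR RR) (zR_mem RR) (maximalIdeal_le_span RR) (exists_const RR)
    f g h0 h1

theorem psi_comp : psi RR φ = φ.comp (psi RR (RingHom.id DU)) := by
  apply GG_ext
  · intro a; simp [psi_cG]
  · intro j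
    rw [RingHom.comp_apply, psi_zT, psi_zT, map_lead, AF, AF, map_Apar, map_Bm]
    rfl

end Pool.Agent.Lib.MP_9fb153_ag
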