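import Pool.Agent.Lib.MP_9fb153_ag.Local
import Pool.Agent.Lib.MP_9fb153_ag.CommAlg

/-!
The tangent cone of `X_w` at `e_v` has an embedded prime.
-/

namespace Pool.Agent.Lib.MP_9fb153_ag

open Matrix IsLocalRing

set_option linter.unusedSectionVars false

variable (RR : Type) [CommRing RR] [IsLocalRing RR] [Algebra (ChartRing vP wP) RR]
  [IsLocalization.AtPrime RR p0]

theorem Am_mem (l : Fin 8) (c : Fin 2) : Am (unitri (zR RR)) l c ∈ maximalIdeal RR := by
  rw [Am, submatrix_apply, unitri_of_gt _ (lft_lt_mid c l)]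
  exact zR_mem RR _

theorem Ap_mem (l : Fin 8) (c : Fin 2) : Ap (unitri (zR RR)) l c ∈ maximalIdeal RR := by
  rw [Ap, mul_apply]
  exact Ideal.sum_mem _ fun j _ => Ideal.mul_mem_left _ _ (Am_mem RR j c)

theorem Am_sub_Ap_mem (l : Fin 8) (c : Fin 2) :
    Am (unitri (zR RR)) l c - Ap (unitri (zR RR)) l c ∈ maximalIdeal RR ^ 2 := by
  have : Am (unitri (zR RR)) l c - Ap (unitri (zR RR)) l c =
      ((Um (unitri (zR RR)) - 1) * Ap (unitri (zR RR)) : Matrix (Fin 8) (Fin 2) RR) l c := by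
    rw [Matrix.sub_mul, Um_mul_Ap, Matrix.one_mul, Matrix.sub_apply]
  rw [this, mul_apply, pow_two]
  refine Ideal.sum_mem _ fun j _ => Ideal.mul_mem_mul ?_ (Ap_mem RR j c)
  rw [Matrix.sub_apply, one_apply]
  rcases lt_trichotomy l j with h | h | h
  · rw [Um_of_lt _ h]; simp [h.ne]
  · subst h; simp [Um_self]
  · have h' : mid j < mid l := by rw [Fin.lt_def]; simpa using h
    rw [Um, submatrix_apply, unitri_of_gt _ h', if_neg h.ne', sub_zero]
    exact zR_mem RR _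

noncomputable def AT : Matrix (Fin 8) (Fin 2) (Rees RR) := Matrix.of fun l c =>
  ⟨Polynomial.monomial 1 (Ap (unitri (zR RR)) l c),
    reesAlgebra.monomial_mem.2 (by simpa using Ap_mem RR l c)⟩

noncomputable def MT (r : ℕ) : M2 (Rees RR) := Ms (Bm (unitri (zT RR))) (AT RR) r
noncomputable def CT : M2 (Rees RR) := Cm (unitri (zT RR))
noncomputable def MR (r : ℕ) : M2 RR := Ms (Bm (unitri (zR RR))) (Ap (unitri (zR RR))) r
noncomputable def CR : M2 RR := Cm (unitri (zR RR))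

noncomputable def io : Rees RR →+* Polynomial RR := (reesAlgebra (maximalIdeal RR)).val.toRingHom

theorem io_unitri {i j : Fin 12} (h : j < i) :
    io RR (unitri (zT RR) i j) = Polynomial.X * Polynomial.C (unitri (zR RR) i j) := by
  rw [unitri_of_gt _ h, unitri_of_gt _ h, mul_comm, Polynomial.C_mul_X_eq_monomial]
  rfl

theorem io_CT : mp (io RR) (CT RR) = fun i c => Polynomial.X * mp Polynomial.C (CR RR) i c := by
  funext i c
  exact io_unitri RR (lft_lt_bot c i)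

theorem io_AT (l : Fin 8) (c : Fin 2) :
    io RR (AT RR l c) = Polynomial.X * Polynomial.C (Ap (unitri (zR RR)) l c) := by
  rw [mul_comm, Polynomial.C_mul_X_eq_monomial]
  rfl

theorem io_MT (r : ℕ) :
    mp (io RR) (MT RR r) = fun i c => Polynomial.X ^ 2 * mp Polynomial.C (MR RR r) i c := by
  funext i c
  simp only [mp, MT, MR, Ms, map_sum, Finset.mul_sum]
  refine Finset.sum_congr rfl fun l _ => ?_
  split_ifs
  · have : io RR (Bm (unitri (zT RR)) i l) =
        Polynomial.X * Polynomial.C (Bm (unitri (zR RR)) i l) := io_unitri RR (mid_lt_bot l i)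
    rw [map_mul, map_mul, this, io_AT]
    ring
  · simp

theorem mkG_AT : (AT RR).map (mkG RR) = (Am (unitri (zT RR))).map (mkG RR) := by
  ext l c
  rw [map_apply, map_apply, eq_comm, ← sub_eq_zero, ← map_sub]
  apply mkG_eq_zero_of_coeff
  intro i
  have h1 : io RR (Am (unitri (zT RR)) l c) =
      Polynomial.X * Polynomial.C (Am (unitri (zR RR)) l c) := io_unitri RR (lft_lt_mid c l)
  change (io RR (Am (unitri (zT RR)) l c - AT RR l c)).coeff i ∈ _
  rw [map_sub, h1, io_AT, ← mul_sub, ← map_sub, mul_comm, Polynomial.C_mul_X_eq_monomial,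
    Polynomial.coeff_monomial]
  split_ifs with hi
  · subst hi; exact Am_sub_Ap_mem RR l c
  · exact Ideal.zero_mem _

theorem map_MT {K : Type} [CommRing K] (f : GG RR →+* K) (r : ℕ) :
    mp (f.comp (mkG RR)) (MT RR r) =
      Ms (Bm (unitri fun y => f (mkG RR (zT RR y)))) (Am (unitri fun y => f (mkG RR (zT RR y))))
        r := by
  rw [MT, map_Ms, map_Bm]
  have : (AT RR).map (f.comp (mkG RR)) = (Am (unitri (zT RR))).map (f.comp (mkG RR)) := by
    rw [RingHom.coe_comp, ← Matrix.map_map, ← Matrix.map_map, mkG_AT]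
  rw [this, map_Am]
  rfl

theorem qf_CR : qf (CR RR) = 0 := by
  have := qf_Sr_zR RR 0
  have e : Sr (unitri (zR RR)) (2 * (0 : Fin 5)) = CR RR := by
    funext i c
    simp [Sr, Ms, CR]
  rwa [e] at this

theorem bf_CR (k : Fin 5) : bf (CR RR) (MR RR (2 * k)) = qf (MR RR (2 * k)) := by
  have := qf_Sr_zR RR k
  rw [Sr, qf_sub] at this
  have h0 := qf_CR RR
  unfold CR at *
  unfold MR
  linear_combination h0 - this

theorem qf_CT : qf (CT RR) = 0 := by
  apply Subtype.ext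
  change io RR (qf (CT RR)) = 0
  have := congrArg Polynomial.C (qf_CR RR)
  rw [map_qf, map_zero] at this
  rw [map_qf, io_CT]
  unfold qf at *
  linear_combination Polynomial.X ^ 2 * this

theorem bf_CT (k : Fin 5) :
    Polynomial.X * io RR (bf (CT RR) (MT RR (2 * k))) = io RR (qf (MT RR (2 * k))) := by
  have := congrArg Polynomial.C (bf_CR RR k)
  rw [map_qf, map_bf] at this
  rw [map_qf, map_bf, io_CT, io_MT]
  unfold qf bf at *
  linear_combination Polynomial.X ^ 4 * this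

theorem bf_nv_scale {A : Type} [CommRing A] (a b : A) (U V W C : M2 A) :
    bf (nv (fun i c => a * U i c) (fun i c => a * V i c) (fun i c => a * W i c))
      (fun i c => b * C i c) = a ^ 3 * b * bf (nv U V W) C := by
  simp only [bf, nv00, nv01, nv10, nv11, d3]; ring

noncomputable def sT : Rees RR := bf (nv (MT RR 2) (MT RR 4) (MT RR 6)) (CT RR)
noncomputable def sR : RR := bf (nv (MR RR 2) (MR RR 4) (MR RR 6)) (CR RR)

theorem sT_val : (sT RR).1 = Polynomial.monomial 7 (sR RR) := by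
  change io RR (sT RR) = _
  rw [sT, map_bf, mp_nv, io_MT, io_MT, io_MT, io_CT, bf_nv_scale, ← mp_nv, ← map_bf,
    ← Polynomial.C_mul_X_pow_eq_monomial, sR]
  ring

variable {D : Type} [CommRing D] (φ : DU →+* D)

theorem gamR_sR : gamR RR φ (sR RR) = PowerSeries.X ^ (7 + 1) * PowerSeries.C
    (bf (nv (Ms (Bm (unitri (eF φ))) (AF φ) 2) (Ms (Bm (unitri (eF φ))) (AF φ) 4)
      (Ms (Bm (unitri (eF φ))) (AF φ) 6)) (CF φ)) := by
  have hz : (fun y => gamR RR φ (zR RR y)) = arcG (fun y => PowerSeries.C (eF φ y))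
      ((AF φ).map PowerSeries.C) (mp PowerSeries.C (CF φ)) PowerSeries.X := by
    funext y; rw [zR, gamR_al, gamPS_X]
  have hM : ∀ r, mp (gamR RR φ) (MR RR r) = fun i c => PowerSeries.X ^ 2 *
      mp PowerSeries.C (Ms (Bm (unitri (eF φ))) (AF φ) r) i c := by
    intro r
    funext i c
    rw [MR, map_Ms, map_Bm, map_Ap, hz, Ms_arcG, map_Ms, map_Bm]
  have hC : mp (gamR RR φ) (CR RR) = fun i c => PowerSeries.X ^ 2 *
      mp PowerSeries.C (CF φ) i c := by
    funext i c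
    rw [CR, map_Cm, hz, Cm_arcG]
  rw [sR, map_bf, mp_nv, hM, hM, hM, hC, bf_nv_scale, ← mp_nv, ← map_bf]
  ring

theorem psi_MT (r : ℕ) :
    mp ((psi RR φ).comp (mkG RR)) (MT RR r) = Ms (Bm (unitri (eF φ))) (AF φ) r := by
  rw [map_MT]
  simp only [psi_zT]
  rw [Bm_lead, Am_lead]

theorem psi_dB : psi RR φ (mkG RR (dB (Bm (unitri (zT RR))))) = dB (Bm (unitri (eF φ))) := by
  rw [← RingHom.comp_apply, map_dB, map_Bm]
  simp only [RingHom.comp_apply, psi_zT]
  rw [Bm_lead]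

noncomputable def phiAt (p q : Fin 5 → Fin 2 → ℂ) : DU →+* ℂ := MvPolynomial.eval (pt e0 p q)

theorem eF_phiAt (p q : Fin 5 → Fin 2 → ℂ) : eF (phiAt p q) = e0 := by
  funext y; simp [eF, phiAt, eU, pt]
theorem pF_phiAt (p q : Fin 5 → Fin 2 → ℂ) : pF (phiAt p q) = p := by
  funext k i; simp [pF, phiAt, pU, pt]
theorem qF_phiAt (p q : Fin 5 → Fin 2 → ℂ) : qF (phiAt p q) = q := by
  funext k i; simp [qF, phiAt, qU, pt]
theorem AF_phiAt (p q : Fin 5 → Fin 2 → ℂ) : AF (phiAt p q) = Apar B0 p q := by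
  rw [AF, eF_phiAt, pF_phiAt, qF_phiAt, Bm_e0]
theorem CF_phiAt (p q : Fin 5 → Fin 2 → ℂ) : CF (phiAt p q) = fun i c => p 0 i * q 0 c := by
  rw [CF, eF_phiAt, pF_phiAt, qF_phiAt, Bm_e0]
  funext i c
  rw [Cpar, dB_B0, one_mul]
theorem Ms_phiAt (p q : Fin 5 → Fin 2 → ℂ) (k : Fin 5) :
    Ms (Bm (unitri (eF (phiAt p q)))) (AF (phiAt p q)) (2 * k) =
      fun i c => p 0 i * q 0 c - p k i * q k c := by
  rw [eF_phiAt, AF_phiAt, Bm_e0]
  funext i c
  exact Ms_B0 p q k i c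

def p2 : Fin 5 → Fin 2 → ℂ := ![![1, 0], ![1, 0], ![1, -1], ![0, -1], ![-1, -1]]
def q2 : Fin 5 → Fin 2 → ℂ := ![![0, 1], ![-1, 1], ![0, 1], ![1, 0], ![1, 0]]

theorem Apar_symm : Apar B0 p2 q2 = Apar B0 q2 p2 := by
  ext l c
  fin_cases l <;> fin_cases c <;> simp [Apar, B0, dB0, dB1, dB2, dB3, Xd, p2, q2]

theorem ann_sT (h : GG RR) (hh : h * mkG RR (sT RR) = 0) : psi RR (phiAt p2 q2) h = 0 := by
  have := arcHom_eq_zero_of_mul (gamR RR (phiAt p2 q2)) (gamR RR (phiAt q2 p2))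
    (gamR_dvd RR _) (gamR_dvd RR _)
    (two_arcs_dvd (zR RR) (cR RR) (zR_mem RR) (maximalIdeal_le_span RR) (exists_const RR) _ _
      (gamR_dvd RR _) (gamR_dvd RR _) ?_ ?_) 7 (sR RR) (sT RR) (sT_val RR) _ _ ?_
    (gamR_sR RR _) (gamR_sR RR _) h hh
  · rw [psi, RingHom.comp_apply, this, map_zero]
  · intro a
    simp [cR, gamR_al, gamPS_C, phiAt]
  · intro j
    rw [zR, gamR_al, gamR_al, gamPS_X, gamPS_X, eF_phiAt, eF_phiAt, AF_phiAt, AF_phiAt, Apar_symm]
    exact arcG_sub _ _ _ _ _ _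
  · have a1 := Ms_phiAt p2 q2 1
    have a2 := Ms_phiAt p2 q2 2
    have a3 := Ms_phiAt p2 q2 3
    have b1 := Ms_phiAt q2 p2 1
    have b2 := Ms_phiAt q2 p2 2
    have b3 := Ms_phiAt q2 p2 3
    change Ms _ _ 2 = _ at a1 b1
    change Ms _ _ 4 = _ at a2 b2
    change Ms _ _ 6 = _ at a3 b3
    rw [a1, a2, a3, b1, b2, b3, CF_phiAt, CF_phiAt]
    simp [bf, nv00, nv01, nv10, nv11, d3, p2, q2]
    norm_num

theorem gram_ne :
    psi RR (phiAt p2 q2) (mkG RR (gram (MT RR 2) (MT RR 4) (MT RR 6))) ≠ 0 := by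
  rw [← RingHom.comp_apply, map_gram, psi_MT, psi_MT, psi_MT]
  have a1 := Ms_phiAt p2 q2 1
  have a2 := Ms_phiAt p2 q2 2
  have a3 := Ms_phiAt p2 q2 3
  change Ms _ _ 2 = _ at a1
  change Ms _ _ 4 = _ at a2
  change Ms _ _ 6 = _ at a3
  rw [a1, a2, a3]
  simp [gram, bf, d3, p2, q2]

theorem dT_ne :
    psi RR (phiAt p1 q1) (mkG RR (bf (nv (MT RR 2) (MT RR 4) (MT RR 6)) (MT RR 8))) ≠ 0 := by
  rw [← RingHom.comp_apply, map_bf, mp_nv, psi_MT, psi_MT, psi_MT, psi_MT]
  have a1 := Ms_phiAt p1 q1 1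
  have a2 := Ms_phiAt p1 q1 2
  have a3 := Ms_phiAt p1 q1 3
  have a4 := Ms_phiAt p1 q1 4
  change Ms _ _ 2 = _ at a1
  change Ms _ _ 4 = _ at a2
  change Ms _ _ 6 = _ at a3
  change Ms _ _ 8 = _ at a4
  rw [a1, a2, a3, a4]
  simp [bf, nv00, nv01, nv10, nv11, d3, p1, q1]
  norm_num

/-- a point of the embedded locus is reached by an arc -/
theorem exists_arc {K : Type} [Field K] [IsAlgClosed K] (f : GG RR →+* K)
    (hC : ∀ i c, f (mkG RR (CT RR i c)) = 0)
    (hg : f (mkG RR (gram (MT RR 2) (MT RR 4) (MT RR 6))) ≠ 0)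
    (hB : f (mkG RR (dB (Bm (unitri (zT RR))))) ≠ 0)
    (hD : f (mkG RR (bf (nv (MT RR 2) (MT RR 4) (MT RR 6)) (MT RR 8))) = 0)
    (hy : f (mkG RR (yf (MT RR 2) (MT RR 4) (MT RR 6) (MT RR 8))) = 0) :
    ∃ φ : DU →+* K, f = psi RR φ := by
  set z : Pos 12 → K := fun y => f (mkG RR (zT RR y)) with hz
  rw [← RingHom.comp_apply, map_gram, map_MT, map_MT, map_MT] at hg
  rw [← RingHom.comp_apply, map_bf, mp_nv, map_MT, map_MT, map_MT, map_MT] at hD
  rw [← RingHom.comp_apply, map_yf, map_MT, map_MT, map_MT, map_MT] at hy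
  rw [← RingHom.comp_apply, map_dB, map_Bm] at hB
  have hC' : ∀ i c, Cm (unitri z) i c = 0 := by
    intro i c
    have := congrFun (congrFun (map_Cm (f.comp (mkG RR)) (zT RR)) i) c
    exact this.symm.trans (hC i c)
  change dB (Bm (unitri z)) ≠ 0 at hB
  rw [← hz] at hg hD hy
  obtain ⟨C0, h0, h1, h2, h3, h4⟩ := exists_apex _ _ _ _ hg hD hy
  have two : (2 : K) ≠ 0 := by
    have := (map_ne_zero (f.comp (cG RR))).2 (two_ne_zero : (2 : ℂ) ≠ 0)
    rwa [map_ofNat] at this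
  have h0' : qf C0 = 0 := (mul_eq_zero.1 h0).resolve_right two
  have hq : ∀ k : Fin 5, qf (C0 - Ms (Bm (unitri z)) (Am (unitri z)) (2 * k)) = 0 := by
    intro k
    rw [qf_sub, h0']
    fin_cases k
    · simp [Ms, bf, qf]
    · change 0 - bf C0 (Ms _ _ 2) + qf (Ms _ _ 2) = 0
      rw [h1]; ring
    · change 0 - bf C0 (Ms _ _ 4) + qf (Ms _ _ 4) = 0
      rw [h2]; ring
    · change 0 - bf C0 (Ms _ _ 6) + qf (Ms _ _ 6) = 0
      rw [h3]; ring
    · change 0 - bf C0 (Ms _ _ 8) + qf (Ms _ _ 8) = 0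
      rw [h4]; ring
  have hex : ∀ k : Fin 5, ∃ p q : Fin 2 → K, ∀ i c,
      C0 i c - Ms (Bm (unitri z)) (Am (unitri z)) (2 * k) i c =
        dB (Bm (unitri z)) * (p i * q c) := by
    intro k
    obtain ⟨p, q, h⟩ := exists_rank_one _ (hq k)
    refine ⟨fun i => p i / dB (Bm (unitri z)), q, fun i c => ?_⟩
    have := h i c
    simp only [Pi.sub_apply] at this
    rw [this]
    field_simp
  choose p q hpq using hex
  let φ : DU →+* K := MvPolynomial.eval₂Hom (f.comp (cG RR)) (pt z p q)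
  have e1 : eF φ = z := by funext y; simp [eF, φ, eU, pt]
  have e2 : pF φ = p := by funext k i; simp [pF, φ, pU, pt]
  have e3 : qF φ = q := by funext k i; simp [qF, φ, qU, pt]
  refine ⟨φ, GG_ext RR _ _ ?_ ?_⟩
  · intro a
    rw [psi_cG]; simp [φ]
  · intro j
    rw [psi_zT, AF, e1, e2, e3, Apar_eq _ _ C0 p q hB hpq, lead_self _ hC']

theorem not_cm : ¬ IsCohenMacaulay (AssocGraded RR) := by
  have : IsNoetherianRing RR :=
    IsLocalization.isNoetherianRing p0.primeCompl RR inferInstance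
  have hsurj : Function.Surjective (psi RR (phiAt p2 q2)) := fun a =>
    ⟨cG RR a, by simp [psi_cG, phiAt]⟩
  have : (RingHom.ker (psi RR (phiAt p2 q2))).IsMaximal :=
    RingHom.ker_isMaximal_of_surjective _ hsurj
  have : (RingHom.ker (psi RR (RingHom.id DU))).IsPrime := RingHom.ker_isPrime _
  refine not_isCohenMacaulay (RingHom.ker (psi RR (phiAt p2 q2))) (mkG RR (sT RR)) (ann_sT RR)
    (RingHom.ker (psi RR (RingHom.id DU))) ?_
  intro P hP hPM hann
  have hsh : ∀ x y : Rees RR, Polynomial.X * io RR x = io RR y → mkG RR x = 0 :=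
    fun x y h => mkG_eq_zero_of_shift x y h
  obtain ⟨r1, r2, r3⟩ := graded_relations (G := GG RR) (io RR) (mkG RR) Polynomial.X
    hsh (CT RR) (MT RR 2) (MT RR 4) (MT RR 6) (MT RR 8)
    (qf_CT RR) (bf_CT RR 1) (bf_CT RR 2) (bf_CT RR 3) (bf_CT RR 4)
  let K := AlgebraicClosure (FractionRing (GG RR ⧸ P))
  let f : GG RR →+* K := (algebraMap (FractionRing (GG RR ⧸ P)) K).comp
    ((algebraMap (GG RR ⧸ P) (FractionRing (GG RR ⧸ P))).comp (Ideal.Quotient.mk P))
  have hf : ∀ x, f x = 0 ↔ x ∈ P := by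
    intro x
    simp only [f, RingHom.comp_apply, map_eq_zero, IsFractionRing.to_map_eq_zero_iff,
      Ideal.Quotient.eq_zero_iff_mem]
  have hg : mkG RR (gram (MT RR 2) (MT RR 4) (MT RR 6)) ∉ P := fun h => gram_ne RR (hPM h)
  obtain ⟨φ, hφ⟩ := exists_arc RR f
    (fun i c => by
      have := hann _ (r1 i c)
      rw [map_mul] at this
      exact (hf _).2 ((hP.mem_or_mem this).resolve_left hg))
    (fun h => hg ((hf _).1 h))
    (fun h => by
      have := hPM ((hf _).1 h)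
      rw [RingHom.mem_ker, psi_dB, eF_phiAt, Bm_e0, dB_B0] at this
      exact one_ne_zero this)
    ((hf _).2 (hann _ r2)) ((hf _).2 (hann _ r3))
  refine lt_of_le_of_ne ?_ ?_
  · intro x hx
    rw [← hf, hφ, psi_comp, RingHom.comp_apply, RingHom.mem_ker.1 hx, map_zero]
  · intro heq
    apply dT_ne RR
    have := hann _ r2
    rw [← heq] at this
    rw [psi_comp, RingHom.comp_apply, RingHom.mem_ker.1 this, map_zero]

end Pool.Agent.Lib.MP_9fb153_ag
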