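import Pool.Agent.Lib.MP_9fb153_ag.Arcs

/-!
The universal family of arcs lies in the Schubert variety.
-/

namespace Pool.Agent.Lib.MP_9fb153_ag

open Matrix

abbrev Par : Type := Pos 12 ⊕ (Fin 5 × Fin 2) ⊕ (Fin 5 × Fin 2)
abbrev DU : Type := MvPolynomial Par ℂ
abbrev Pz : Type := MvPolynomial (Pos 12) ℂ

noncomputable def eU : Pos 12 → DU := fun y => MvPolynomial.X (Sum.inl y)
noncomputable def pU : Fin 5 → Fin 2 → DU := fun k i => MvPolynomial.X (Sum.inr (Sum.inl (k, i)))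
noncomputable def qU : Fin 5 → Fin 2 → DU := fun k i => MvPolynomial.X (Sum.inr (Sum.inr (k, i)))

def pt {K : Type} (e : Pos 12 → K) (p q : Fin 5 → Fin 2 → K) : Par → K :=
  Sum.elim e (Sum.elim (fun x => p x.1 x.2) (fun x => q x.1 x.2))

noncomputable def arcU : Pos 12 → Polynomial DU :=
  arcP (fun y => Polynomial.C (eU y)) (fun k i => Polynomial.C (pU k i))
    (fun k i => Polynomial.C (qU k i)) Polynomial.X

noncomputable def gamU : Pz →+* Polynomial DU :=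
  MvPolynomial.eval₂Hom (Polynomial.C.comp MvPolynomial.C) arcU

noncomputable def evP (x : Par → ℂ) (t : ℂ) : Polynomial DU →+* ℂ :=
  Polynomial.eval₂RingHom (MvPolynomial.eval x) t

theorem evP_ext (f : Polynomial DU) (h : ∀ x t, evP x t f = 0) : f = 0 := by
  ext1 n
  rw [Polynomial.coeff_zero]
  apply MvPolynomial.funext
  intro x
  have : f.map (MvPolynomial.eval x) = 0 := by
    apply Polynomial.funext
    intro t
    rw [Polynomial.eval_map, Polynomial.eval_zero]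
    exact h x t
  have := congrArg (fun g => Polynomial.coeff g n) this
  simpa using this

theorem evP_arcU (x : Par → ℂ) (t : ℂ) (y : Pos 12) :
    evP x t (arcU y) = arcP (fun y => x (Sum.inl y)) (fun k i => x (Sum.inr (Sum.inl (k, i))))
      (fun k i => x (Sum.inr (Sum.inr (k, i)))) t y := by
  rw [arcU, map_arcP]
  simp [evP, eU, pU, qU]

theorem evP_gamU (x : Par → ℂ) (t : ℂ) (F : Pz) :
    evP x t (gamU F) = MvPolynomial.aeval (fun y => evP x t (arcU y)) F := by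
  have : (evP x t).comp gamU = (MvPolynomial.aeval (fun y => evP x t (arcU y))).toRingHom := by
    apply MvPolynomial.ringHom_ext
    · intro r; simp [gamU, evP]
    · intro i; simp [gamU]
  exact RingHom.congr_fun this F

def e0 : Pos 12 → ℂ := fun x =>
  if ((x.1.1 : ℕ) = 10 ∧ (x.1.2 : ℕ) % 2 = 0 ∧ 2 ≤ (x.1.2 : ℕ)) ∨
    ((x.1.1 : ℕ) = 11 ∧ (x.1.2 : ℕ) % 2 = 1 ∧ 2 ≤ (x.1.2 : ℕ)) then 1 else 0

def B0 : Matrix (Fin 2) (Fin 8) ℂ := !![1, 0, 1, 0, 1, 0, 1, 0; 0, 1, 0, 1, 0, 1, 0, 1]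

theorem Bm_e0 : Bm (unitri e0) = B0 := by
  ext i l
  simp only [Bm, submatrix_apply]
  rw [unitri_of_gt _ (mid_lt_bot l i)]
  fin_cases i <;> fin_cases l <;> simp [e0, B0]

theorem lft_e0 : unitri e0 (lft 1) (lft 0) = 0 := by
  rw [unitri_of_gt _ (by decide)]; simp [e0]

theorem bot_e0 : unitri e0 (bot 1) (bot 0) = 0 := by
  rw [unitri_of_gt _ (by decide)]; simp [e0]

theorem dB_B0 : dB B0 = 1 := by simp [dB, dB0, dB1, dB2, dB3, B0]

theorem Ms_B0 (p q : Fin 5 → Fin 2 → ℂ) (k : Fin 5) (i c : Fin 2) :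
    Ms B0 (Apar B0 p q) (2 * k) i c = p 0 i * q 0 c - p k i * q k c := by
  have := Cpar_sub_Ms B0 p q k i c
  rw [Cpar, dB_B0] at this
  linear_combination -this

def p1 : Fin 5 → Fin 2 → ℂ := ![![1, 1], ![1, 2], ![2, 1], ![1, 1], ![1, 3]]
def q1 : Fin 5 → Fin 2 → ℂ := ![![1, 0], ![1, 1], ![1, 2], ![0, 1], ![1, 0]]

theorem generic_point :
    (∀ k : Fin 4, qf (Sr (unitri (arcP e0 p1 q1 1)) (2 * k + 1)) ≠ 0) ∧
      Cm (unitri (arcP e0 p1 q1 1)) 1 0 ≠ 0 ∧ h11 (unitri (arcP e0 p1 q1 1)) ≠ 0 := by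
  have m2 := fun i c => Ms_B0 p1 q1 1 i c
  have m4 := fun i c => Ms_B0 p1 q1 2 i c
  have m6 := fun i c => Ms_B0 p1 q1 3 i c
  have m8 := fun i c => Ms_B0 p1 q1 4 i c
  change ∀ i c, Ms B0 _ 2 i c = _ at m2
  change ∀ i c, Ms B0 _ 4 i c = _ at m4
  change ∀ i c, Ms B0 _ 6 i c = _ at m6
  change ∀ i c, Ms B0 _ 8 i c = _ at m8
  have m1 := fun i c => (Ms_explicit (Apar B0 p1 q1) B0 i c).2.2.2.2.2.1
  have m3 := fun i c => (Ms_explicit (Apar B0 p1 q1) B0 i c).2.2.2.2.2.2.1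
  have m5 := fun i c => (Ms_explicit (Apar B0 p1 q1) B0 i c).2.2.2.2.2.2.2.1
  have m7 := fun i c => (Ms_explicit (Apar B0 p1 q1) B0 i c).2.2.2.2.2.2.2.2
  refine ⟨fun k => ?_, ?_, ?_⟩
  · fin_cases k
    · change qf (Sr _ 1) ≠ 0
      simp only [qf, arcP, Sr_arcG, Bm_e0, m1, Cpar, dB_B0]
      simp [Apar, B0, dB0, dB1, dB2, dB3, Xd, p1, q1]
    · change qf (Sr _ 3) ≠ 0
      simp only [qf, arcP, Sr_arcG, Bm_e0, m3, m2, Cpar, dB_B0]
      simp [Apar, B0, dB0, dB1, dB2, dB3, Xd, p1, q1]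
      norm_num
    · change qf (Sr _ 5) ≠ 0
      simp only [qf, arcP, Sr_arcG, Bm_e0, m5, m4, Cpar, dB_B0]
      simp [Apar, B0, dB0, dB1, dB2, dB3, Xd, p1, q1]
    · change qf (Sr _ 7) ≠ 0
      simp only [qf, arcP, Sr_arcG, Bm_e0, m7, m6, Cpar, dB_B0]
      simp [Apar, B0, dB0, dB1, dB2, dB3, Xd, p1, q1]
  · simp only [arcP, Cm_arcG, Bm_e0, Cpar, dB_B0]
    simp [p1, q1]
  · simp only [h11, arcP, Sr_arcG, Bm_e0, m8, Cpar, dB_B0, lft_arcG, bot_arcG, lft_e0, bot_e0]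
    simp [p1, q1]

theorem gamU_eq_zero (F : Pz) (hF : F ∈ schubertIdeal vP wP) : gamU F = 0 := by
  let H : Polynomial DU := (∏ k : Fin 4, qf (Sr (unitri arcU) (2 * k + 1))) *
    Cm (unitri arcU) 1 0 * h11 (unitri arcU)
  have hH : ∀ x t, evP x t H =
      (∏ k : Fin 4, qf (Sr (unitri fun y => evP x t (arcU y)) (2 * k + 1))) *
        Cm (unitri fun y => evP x t (arcU y)) 1 0 * h11 (unitri fun y => evP x t (arcU y)) := by
    intro x t
    simp only [H, map_mul, map_prod, map_qf, map_Sr, map_h11, ← map_Cm, mp]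
  have hne : H ≠ 0 := by
    intro h0
    have := hH (pt e0 p1 q1) 1
    rw [h0, map_zero] at this
    have e : (fun y => evP (pt e0 p1 q1) 1 (arcU y)) = arcP e0 p1 q1 1 := by
      funext y; rw [evP_arcU]; rfl
    rw [e] at this
    obtain ⟨g1, g2, g3⟩ := generic_point
    exact mul_ne_zero (mul_ne_zero (Finset.prod_ne_zero_iff.2 fun k _ => g1 k) g2) g3 this.symm
  refine (mul_eq_zero.1 (evP_ext (H * gamU F) fun x t => ?_)).resolve_left hne
  rw [map_mul]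
  by_cases h : evP x t H = 0
  · rw [h, zero_mul]
  · rw [hH] at h
    obtain ⟨h, g3⟩ := mul_ne_zero_iff.1 h
    obtain ⟨g1, g2⟩ := mul_ne_zero_iff.1 h
    rw [Finset.prod_ne_zero_iff] at g1
    rw [evP_gamU, hF _ (mem_cell_of _ ?_ (fun k => g1 k (Finset.mem_univ _)) g2 g3), mul_zero]
    intro k
    simp only [evP_arcU]
    exact qf_Sr_arcP _ _ _ _ k

theorem qf_Sr_mem (k : Fin 5) :
    qf (Sr (unitri (MvPolynomial.X : Pos 12 → Pz)) (2 * k)) ∈ schubertIdeal vP wP := by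
  intro z hz
  have := map_qf (MvPolynomial.aeval z : Pz →ₐ[ℂ] ℂ).toRingHom
    (Sr (unitri (MvPolynomial.X : Pos 12 → Pz)) (2 * k))
  rw [map_Sr] at this
  refine this.trans ?_
  simpa using qf_of_mem_cell z hz k

end Pool.Agent.Lib.MP_9fb153_ag
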